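import Mathlib

/-!
# Pseudoprimes: definitions

`l2 x = log log x`, `l3 x = log log log x`, `LL x = log x * l3 x / l2 x` (the logarithm of `ℓ(x)`),
`Sys P d C`: a set `P` of primes with a function `d`, `d p ∣ p - 1`, and at most `C k` primes with
`d p = k`; `NN P d n`: `n` is composite, all its primes `p` are in `P` and satisfy `d p ∣ n - 1`.
-/

set_option autoImplicit false

noncomputable section

namespace Pool.Agent.Lib.MP_757a88_nt.PS

/-- A set `P` of primes and a function `d` with `d p ∣ p - 1` and at most `C k` primes `p` with `d p = k`. -/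
structure Sys (P : ℕ → Prop) (d : ℕ → ℕ) (C : ℝ) : Prop where
  one_le : 1 ≤ C
  dvd : ∀ p, p.Prime → P p → d p ∣ p - 1
  card : ∀ k : ℕ, 1 ≤ k → ∀ F : Finset ℕ, (∀ p ∈ F, p.Prime ∧ P p ∧ d p = k) → (F.card : ℝ) ≤ C * k

/-- The composite numbers all of whose primes `p` are in `P` and satisfy `d p ∣ n - 1`. -/
def NN (P : ℕ → Prop) (d : ℕ → ℕ) (n : ℕ) : Prop :=
  1 < n ∧ ¬ n.Prime ∧ ∀ p, p.Prime → p ∣ n → P p ∧ d p ∣ n - 1

/-- `log log x` -/
def l2 (x : ℝ) : ℝ := Real.log (Real.log x)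

/-- `log log log x` -/
def l3 (x : ℝ) : ℝ := Real.log (Real.log (Real.log x))

/-- `log x * log log log x / log log x` -/
def LL (x : ℝ) : ℝ := Real.log x * l3 x / l2 x

theorem Sys.pos {P : ℕ → Prop} {d : ℕ → ℕ} {C : ℝ} (H : Sys P d C) {p : ℕ} (hp : p.Prime)
    (hP : P p) : 1 ≤ d p := by
  have h := H.dvd p hp hP
  have h1 : 0 < p - 1 := Nat.sub_pos_of_lt hp.one_lt
  exact Nat.pos_of_dvd_of_pos h h1

end Pool.Agent.Lib.MP_757a88_nt.PS
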