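import Pool.Agent.Lib.MP_757a88_nt.Mg.G004
import Pool.Agent.Lib.MP_757a88_nt.Mg.G001
import Pool.Agent.Lib.MP_757a88_nt.Mg.G003

/-!
# Pseudoprimes, B5: few bases have many bad primes
-/

set_option autoImplicit false

noncomputable section

namespace Pool.Agent.Lib.MP_757a88_nt.PS

open Filter ArithmeticFunction

private theorem b5_log {r c : ℝ} (hr : 0 < r) (hc : 0 < c) :
    ∀ᶠ u : ℝ in atTop, Real.log u ≤ c * u ^ r := by
  have h := (isLittleO_log_rpow_atTop hr).bound hc
  filter_upwards [h, eventually_ge_atTop (1 : ℝ)] with u h1 h2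
  rw [Real.norm_of_nonneg (Real.log_nonneg h2),
    Real.norm_of_nonneg (Real.rpow_nonneg (by linarith) r)] at h1
  exact h1

private theorem b5_lin {r c : ℝ} (hr : 1 < r) (hc : 0 < c) (C D : ℝ) :
    ∀ᶠ u : ℝ in atTop, C + D * u ≤ c * u ^ r := by
  have h := (tendsto_rpow_atTop (show 0 < r - 1 by linarith)).eventually_ge_atTop
    ((|C| + |D|) / c)
  filter_upwards [h, eventually_ge_atTop (1 : ℝ)] with u h1 h2
  have hu : 0 < u := by linarith
  rw [div_le_iff₀ hc] at h1
  have e : u ^ r = u ^ (r - 1) * u := by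
    rw [← Real.rpow_add_one hu.ne']
    congr 1
    ring
  rw [e]
  have h3 : (|C| + |D|) * u ≤ u ^ (r - 1) * c * u := mul_le_mul_of_nonneg_right h1 hu.le
  have h4 : C ≤ |C| * u := by nlinarith [le_abs_self C, abs_nonneg C]
  have h5 : D * u ≤ |D| * u := mul_le_mul_of_nonneg_right (le_abs_self D) hu.le
  nlinarith

/-- PROOF. Write `X = log x`, `th = κ / 2 - ε / 4 ≤ 1 - ε / 4`, `θ₁ = κ / 2 - ε / 2`, `v = θ₁ l3 / l2`, `B = κ + 1 - ε / 2`, `δ = (1 - th) / 2`, `y = exp (l2 ^ (3 / 2))`, `Z = ⌊exp (l2 ^ B)⌋`,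
`ρ = ⌈l2⌉` (`Z ≤ exp (l2 ^ B) ≤ exp (l2 * l2 ^ κ) ≤ A ^ ρ`, `ρ ≤ 2 l2`), `c = (1 - th) / 8`, `K = ⌊c log A / l3⌋` (`ρ ^ K ≤ exp (2 K l3) ≤ A ^ ((1 - th) / 4)`).
(1) The `a ≤ A` with `Ω a > K`: `card_Omega_le`, `(2 / 3) ^ K ≤ (3 / 2) exp (- (2 / 5) c log A / l3) ≤ (3 / 2) exp (- (2 / 5) c l2 ^ κ / l3)`, `log A ≤ X`: at most `A / (2 X ^ N)`, as `l2 ^ κ / l3`
is larger than any multiple of `l2`. (2) The `a ∈ G` with `Ω a ≤ K`: at most the sum in `first_moment`: `2 A C₁ (y / 2) ^ (- δ / 2) ≤ A / (4 X ^ N)` (`l2 ^ (3 / 2)` against `l2`), and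
`Z ^ v ≤ exp (θ₁ l3 l2 ^ (κ - ε / 2)) ≤ exp ((1 - th) / 16 * l2 ^ κ) ≤ A ^ ((1 - th) / 16)`, `(1 + log Z) ^ 2 ≤ (1 + l2 ^ B) ^ 2 ≤ A ^ ((1 - th) / 16)`, so the second term is
at most `2 A ^ (1 - (1 - th) / 8) ≤ A / (4 X ^ N)`. -/
theorem few_bad {κ ε : ℝ} (hκ : 1 < κ) (hκ2 : κ ≤ 2) (hε : 0 < ε) (hε1 : ε ≤ (κ - 1) / 2) (N : ℕ) :
    ∀ᶠ x : ℝ in atTop, ∀ A : ℕ, Real.exp (l2 x ^ κ) ≤ A → (A : ℝ) ≤ x → ∀ G : Finset ℕ,
      (∀ a ∈ G, 2 ≤ a ∧ a ≤ A ∧
        1 < ∑ p ∈ badP (κ / 2 - ε / 4) (Real.exp (l2 x ^ (3 / 2 : ℝ)))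
          ⌊Real.exp (l2 x ^ (κ + 1 - ε / 2))⌋₊ a, (p : ℝ) ^ (-1 + (κ / 2 - ε / 2) * l3 x / l2 x)) →
      (G.card : ℝ) ≤ A / Real.log x ^ N := by
  classical
  set th : ℝ := κ / 2 - ε / 4 with hth
  set η : ℝ := 1 - th with hη
  have hη0 : 0 < η := by rw [hη, hth]; linarith
  have hη1 : η ≤ 1 := by rw [hη, hth]; linarith
  set θ₁ : ℝ := κ / 2 - ε / 2 with hθ₁
  have hθ0 : 0 < θ₁ := by rw [hθ₁]; linarith
  set Be : ℝ := κ + 1 - ε / 2 with hBe
  have hBe0 : 0 < Be := by rw [hBe]; linarith
  obtain ⟨C₁, hC0, hfm⟩ := first_moment (th := th) (δ := η / 2) (by rw [hth]; linarith)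
    (by linarith)
  have ev : ∀ᶠ u : ℝ in atTop, 2 ≤ u ∧ θ₁ * Real.log u / u ≤ η / 2 ∧
      (Real.log 3 + 24 + (36 + N) * u) * Real.log u ≤ (2 / 5) * (η / 8) * u ^ κ ∧
      (Real.log (8 * (C₁ + 1)) + (η / 4) * Real.log 2) + N * u ≤ (η / 4) * u ^ (3 / 2 : ℝ) ∧
      θ₁ * Real.log u ≤ (η / 16) * u ^ (ε / 2) ∧
      2 * Real.log 2 + 2 * Be * u ≤ (η / 16) * u ^ κ ∧
      Real.log 8 + N * u ≤ (η / 8) * u ^ κ := by
    have h1 := b5_log (r := 1) (c := η / (2 * θ₁)) (by norm_num) (by positivity)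
    have h2 := b5_log (r := κ - 1) (c := (2 / 5) * (η / 8) / (Real.log 3 + 24 + (36 + N)))
      (by linarith) (by
        have : 0 < Real.log 3 := Real.log_pos (by norm_num)
        positivity)
    have h3 := b5_lin (r := 3 / 2) (c := η / 4) (by norm_num) (by linarith)
      (Real.log (8 * (C₁ + 1)) + (η / 4) * Real.log 2) N
    have h4 := b5_log (r := ε / 2) (c := (η / 16) / θ₁) (by linarith) (by positivity)
    have h5 := b5_lin (r := κ) (c := η / 16) hκ (by linarith) (2 * Real.log 2) (2 * Be)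
    have h6 := b5_lin (r := κ) (c := η / 8) hκ (by linarith) (Real.log 8) N
    filter_upwards [h1, h2, h3, h4, h5, h6, eventually_ge_atTop (2 : ℝ)] with u g1 g2 g3 g4 g5 g6 g7
    have hu : 0 < u := by linarith
    have hlu : 0 < Real.log u := Real.log_pos (by linarith)
    have hl3 : 0 < Real.log 3 := Real.log_pos (by norm_num)
    refine ⟨g7, ?_, ?_, g3, ?_, g5, g6⟩
    · rw [Real.rpow_one] at g1
      rw [div_le_iff₀ hu]
      have : θ₁ * Real.log u ≤ θ₁ * (η / (2 * θ₁) * u) := mul_le_mul_of_nonneg_left g1 hθ0.le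
      have e : θ₁ * (η / (2 * θ₁) * u) = η / 2 * u := by
        field_simp
      linarith
    · have hS : 0 < Real.log 3 + 24 + (36 + (N : ℝ)) := by positivity
      have a1 : (Real.log 3 + 24 + (36 + (N : ℝ))) * Real.log u ≤ (2 / 5) * (η / 8) * u ^ (κ - 1) := by
        have := mul_le_mul_of_nonneg_left g2 hS.le
        have e : (Real.log 3 + 24 + (36 + (N : ℝ))) * ((2 / 5) * (η / 8) /
            (Real.log 3 + 24 + (36 + N)) * u ^ (κ - 1)) = (2 / 5) * (η / 8) * u ^ (κ - 1) := by
          field_simp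
        linarith
      have a2 : (Real.log 3 + 24 + (36 + N) * u) * Real.log u
          ≤ (Real.log 3 + 24 + (36 + (N : ℝ))) * Real.log u * u := by
        have a3 : Real.log 3 + 24 + (36 + N) * u ≤ (Real.log 3 + 24 + (36 + (N : ℝ))) * u := by
          nlinarith
        have := mul_le_mul_of_nonneg_right a3 hlu.le
        linarith [this]
      have a4 := mul_le_mul_of_nonneg_right a1 hu.le
      have e : u ^ κ = u ^ (κ - 1) * u := by
        rw [← Real.rpow_add_one hu.ne']
        congr 1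
        ring
      rw [e]
      linarith
    · have := mul_le_mul_of_nonneg_left g4 hθ0.le
      have e : θ₁ * ((η / 16) / θ₁ * u ^ (ε / 2)) = (η / 16) * u ^ (ε / 2) := by
        field_simp
      linarith
  have evx := tendsto_l2.eventually ev
  have evX : ∀ᶠ x : ℝ in atTop, 1 < Real.log x :=
    Real.tendsto_log_atTop.eventually_gt_atTop 1
  filter_upwards [evx, evX] with x hx hX
  intro A hA hAx G hG
  obtain ⟨hu2, e2, e4, e5, e6, e7, e8⟩ := hx
  set u : ℝ := l2 x with hu
  have hw : l3 x = Real.log u := rfl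
  rw [hw] at hG
  set w : ℝ := Real.log u with hwd
  have hu0 : 0 < u := by linarith
  have hw0 : 0 < w := Real.log_pos (by linarith)
  have hXu : Real.log x = Real.exp u := by
    rw [hu, l2, Real.exp_log (by linarith)]
  have hAexp : Real.exp (u ^ κ) ≤ A := hA
  have hA0 : (0 : ℝ) < A := (Real.exp_pos _).trans_le hAexp
  have hlogA : u ^ κ ≤ Real.log A := by
    rw [Real.le_log_iff_exp_le hA0]
    exact hAexp
  have huκ : u ≤ u ^ κ := by
    calc u = u ^ (1 : ℝ) := (Real.rpow_one u).symm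
      _ ≤ u ^ κ := Real.rpow_le_rpow_of_exponent_le (by linarith) hκ.le
  have hlogA2 : 2 ≤ Real.log A := by linarith
  have hlogA0 : 0 < Real.log A := by linarith
  have hlogAX : Real.log A ≤ Real.exp u := by
    rw [← hXu]
    exact Real.log_le_log hA0 hAx
  have hA2 : 2 ≤ A := by
    have h1 : (2 : ℝ) ≤ A := by
      have h2 := Real.add_one_le_exp (u ^ κ)
      linarith
    exact_mod_cast h1
  have hc0 : 0 < η / 8 := by linarith
  set K : ℕ := ⌊η / 8 * Real.log A / w⌋₊ with hK
  have hKle : (K : ℝ) * w ≤ η / 8 * Real.log A := by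
    have h1 : (K : ℝ) ≤ η / 8 * Real.log A / w := Nat.floor_le (by positivity)
    rwa [le_div_iff₀ hw0] at h1
  have hKge : η / 8 * Real.log A / w < K + 1 := Nat.lt_floor_add_one _
  set ρ : ℕ := ⌈u⌉₊ with hρ
  have hρge : u ≤ ρ := Nat.le_ceil u
  have hρle : (ρ : ℝ) ≤ 2 * u := by
    have h1 : (ρ : ℝ) < u + 1 := Nat.ceil_lt_add_one hu0.le
    linarith
  set Z : ℕ := ⌊Real.exp (u ^ Be)⌋₊ with hZ
  have huBe0 : 0 ≤ u ^ Be := by positivity
  have hZle : (Z : ℝ) ≤ Real.exp (u ^ Be) := Nat.floor_le (Real.exp_pos _).le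
  have hZ1 : 1 ≤ Z := by
    rw [hZ, Nat.one_le_floor_iff]
    exact Real.one_le_exp huBe0
  have hZ1' : (1 : ℝ) ≤ Z := by exact_mod_cast hZ1
  have hlogZ : Real.log Z ≤ u ^ Be := by
    rw [Real.log_le_iff_le_exp (by linarith)]
    exact hZle
  have hlogZ0 : 0 ≤ Real.log Z := Real.log_nonneg hZ1'
  have hZA : Z ≤ A ^ ρ := by
    have h1 : (Z : ℝ) ≤ (A : ℝ) ^ ρ := by
      have h2 : u ^ Be ≤ u ^ κ * u := by
        have e : u ^ κ * u = u ^ (κ + 1) := (Real.rpow_add_one hu0.ne' κ).symm
        rw [e]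
        exact Real.rpow_le_rpow_of_exponent_le (by linarith) (by rw [hBe]; linarith)
      have h3 : u ^ κ * u ≤ (ρ : ℝ) * Real.log A := by
        rw [mul_comm]
        exact mul_le_mul hρge hlogA (by positivity) (by positivity)
      calc (Z : ℝ) ≤ Real.exp (u ^ Be) := hZle
        _ ≤ Real.exp ((ρ : ℝ) * Real.log A) := Real.exp_le_exp.2 (h2.trans h3)
        _ = (A : ℝ) ^ ρ := by
          rw [Real.exp_nat_mul, Real.exp_log hA0]
    exact_mod_cast h1
  have hρK : (ρ : ℝ) ^ K ≤ (A : ℝ) ^ (η / 4) := by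
    have h1 : (ρ : ℝ) ^ K ≤ (u ^ 2) ^ K := by
      apply pow_le_pow_left₀ (by positivity)
      nlinarith
    have h2 : (u ^ 2) ^ K = Real.exp (2 * ((K : ℝ) * w)) := by
      have h3 : u = Real.exp w := by rw [hwd, Real.exp_log hu0]
      rw [← pow_mul]
      conv_lhs => rw [h3]
      rw [← Real.exp_nat_mul]
      congr 1
      push_cast
      ring
    have h4 : (A : ℝ) ^ (η / 4) = Real.exp (η / 4 * Real.log A) := by
      rw [Real.rpow_def_of_pos hA0, mul_comm]
    rw [h4]
    refine h1.trans ?_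
    rw [h2]
    apply Real.exp_le_exp.2
    linarith
  set y : ℝ := Real.exp (u ^ (3 / 2 : ℝ)) with hy
  have hu32 : u ≤ u ^ (3 / 2 : ℝ) := by
    calc u = u ^ (1 : ℝ) := (Real.rpow_one u).symm
      _ ≤ u ^ (3 / 2 : ℝ) := Real.rpow_le_rpow_of_exponent_le (by linarith) (by norm_num)
  have hy2 : 2 ≤ y := by
    have h1 := Real.add_one_le_exp (u ^ (3 / 2 : ℝ))
    linarith
  set v : ℝ := θ₁ * w / u with hv
  have hv0 : 0 ≤ v := by positivity
  have hXN : Real.log x ^ N = Real.exp (N * u) := by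
    rw [hXu, Real.exp_nat_mul]
  rw [hXN]
  -- the two parts of `G`
  have hsplit : (G.card : ℝ) = ((G.filter (fun a => K < cardFactors a)).card : ℝ)
      + ((G.filter (fun a => ¬ K < cardFactors a)).card : ℝ) := by
    exact_mod_cast (Finset.card_filter_add_card_filter_not (s := G)
      (fun a => K < cardFactors a)).symm
  have hG1 : ((G.filter (fun a => K < cardFactors a)).card : ℝ)
      ≤ A * (1 / 2 * Real.exp (-(N * u))) := by
    have h1 : ((G.filter (fun a => K < cardFactors a)).card : ℝ)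
        ≤ (((Finset.Icc 1 A).filter fun a => K < cardFactors a).card : ℝ) := by
      have : G.filter (fun a => K < cardFactors a) ⊆
          (Finset.Icc 1 A).filter fun a => K < cardFactors a := by
        intro a ha
        rw [Finset.mem_filter] at ha
        rw [Finset.mem_filter, Finset.mem_Icc]
        obtain ⟨h2, h3, _⟩ := hG a ha.1
        exact ⟨⟨by omega, h3⟩, ha.2⟩
      exact_mod_cast Finset.card_le_card this
    refine h1.trans ((card_Omega_le (K := K) hA2).trans ?_)
    rw [mul_assoc]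
    apply mul_le_mul_of_nonneg_left _ hA0.le
    have hl : (2 / 5 : ℝ) ≤ Real.log (3 / 2) := by
      rw [Real.le_log_iff_exp_le (by norm_num)]
      have h2 : Real.exp (2 / 5) ^ 5 ≤ (3 / 2 : ℝ) ^ 5 := by
        rw [← Real.exp_nat_mul]
        have h3 : ((5 : ℕ) : ℝ) * (2 / 5) = 1 + 1 := by norm_num
        rw [h3, Real.exp_add]
        have h4 := Real.exp_one_lt_d9
        have h5 := Real.exp_pos 1
        nlinarith
      exact le_of_pow_le_pow_left₀ (by norm_num) (by norm_num) h2
    have h23 : (2 / 3 : ℝ) ^ K = Real.exp (-(K * Real.log (3 / 2))) := by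
      have h3 : (2 / 3 : ℝ) = Real.exp (-Real.log (3 / 2)) := by
        rw [Real.exp_neg, Real.exp_log (by norm_num)]
        norm_num
      conv_lhs => rw [h3]
      rw [← Real.exp_nat_mul]
      congr 1
      ring
    have hlA36 : Real.log A ^ (36 : ℕ) ≤ Real.exp (36 * u) := by
      have h3 : Real.exp (36 * u) = Real.exp u ^ (36 : ℕ) := by
        rw [← Real.exp_nat_mul]
        congr 1
      rw [h3]
      exact pow_le_pow_left₀ hlogA0.le hlogAX 36
    have hlog32 : Real.log (3 / 2) ≤ Real.log 3 := Real.log_le_log (by norm_num) (by norm_num)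
    have hmain : Real.log 3 + 24 + (36 + N) * u ≤ (2 / 5) * (η / 8 * Real.log A / w) := by
      have h3 : (2 / 5) * (η / 8) * u ^ κ ≤ (2 / 5) * (η / 8) * Real.log A :=
        mul_le_mul_of_nonneg_left hlogA (by positivity)
      have h4 : (2 / 5) * (η / 8 * Real.log A / w) = ((2 / 5) * (η / 8) * Real.log A) / w := by
        ring
      rw [h4, le_div_iff₀ hw0]
      linarith
    have hKl : (2 / 5) * (η / 8 * Real.log A / w) ≤ (K + 1) * Real.log (3 / 2) := by
      have h3 : 0 ≤ η / 8 * Real.log A / w := by positivity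
      calc (2 / 5) * (η / 8 * Real.log A / w) ≤ Real.log (3 / 2) * (η / 8 * Real.log A / w) :=
            mul_le_mul_of_nonneg_right hl h3
        _ ≤ Real.log (3 / 2) * (K + 1) := mul_le_mul_of_nonneg_left hKge.le (by linarith)
        _ = _ := mul_comm _ _
    have hhalf : (1 / 2 : ℝ) = Real.exp (Real.log (3 / 2) - Real.log 3) := by
      rw [Real.exp_sub, Real.exp_log (by norm_num), Real.exp_log (by norm_num)]
      norm_num
    calc (2 / 3 : ℝ) ^ K * (Real.exp 24 * Real.log A ^ (36 : ℕ))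
        ≤ Real.exp (-(K * Real.log (3 / 2))) * (Real.exp 24 * Real.exp (36 * u)) := by
          rw [h23]
          apply mul_le_mul_of_nonneg_left _ (Real.exp_pos _).le
          exact mul_le_mul_of_nonneg_left hlA36 (Real.exp_pos _).le
      _ = Real.exp (-(K * Real.log (3 / 2)) + (24 + 36 * u)) := by
          rw [← Real.exp_add, ← Real.exp_add]
      _ ≤ Real.exp ((Real.log (3 / 2) - Real.log 3) + -(N * u)) := by
          apply Real.exp_le_exp.2
          nlinarith
      _ = 1 / 2 * Real.exp (-(N * u)) := by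
          rw [Real.exp_add, ← hhalf]
  have hG2 : ((G.filter (fun a => ¬ K < cardFactors a)).card : ℝ)
      ≤ A * (1 / 2 * Real.exp (-(N * u))) := by
    have hnn : ∀ a, 0 ≤ ∑ p ∈ badP th y Z a, (p : ℝ) ^ (-1 + v) :=
      fun a => Finset.sum_nonneg (fun p _ => by positivity)
    have h1 : ((G.filter (fun a => ¬ K < cardFactors a)).card : ℝ)
        ≤ ∑ a ∈ (Finset.Icc 2 A).filter (fun a => cardFactors a ≤ K),
          ∑ p ∈ badP th y Z a, (p : ℝ) ^ (-1 + v) := by
      calc ((G.filter (fun a => ¬ K < cardFactors a)).card : ℝ)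
          = ∑ a ∈ G.filter (fun a => ¬ K < cardFactors a), (1 : ℝ) := by simp
        _ ≤ ∑ a ∈ G.filter (fun a => ¬ K < cardFactors a),
            ∑ p ∈ badP th y Z a, (p : ℝ) ^ (-1 + v) := by
          apply Finset.sum_le_sum
          intro a ha
          rw [Finset.mem_filter] at ha
          have h2 := (hG a ha.1).2.2
          exact h2.le
        _ ≤ _ := by
          apply Finset.sum_le_sum_of_subset_of_nonneg
          · intro a ha
            rw [Finset.mem_filter] at ha
            rw [Finset.mem_filter, Finset.mem_Icc]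
            obtain ⟨h2, h3, _⟩ := hG a ha.1
            exact ⟨⟨h2, h3⟩, by omega⟩
          · intro a _ _
            exact hnn a
    have h2 := hfm v A K ρ Z y hv0 (by
      have : v ≤ η / 2 := e2
      have : th + η = 1 := by rw [hη]; ring
      linarith) hA2 hy2 hZA hZ1
    refine (h1.trans h2).trans ?_
    have hth1 : 1 - th = η := rfl
    rw [hth1]
    have t1 : 2 * (A : ℝ) * (C₁ * (y / 2) ^ (-(η / 2) / 2)) ≤ A * (1 / 4 * Real.exp (-(N * u))) := by
      have h3 : y / 2 = Real.exp (u ^ (3 / 2 : ℝ) - Real.log 2) := by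
        rw [Real.exp_sub, Real.exp_log (by norm_num)]
      have h4 : (y / 2) ^ (-(η / 2) / 2) = Real.exp (-(η / 4) * (u ^ (3 / 2 : ℝ) - Real.log 2)) := by
        rw [h3, ← Real.exp_mul]
        congr 1
        ring
      rw [h4]
      have h5 : C₁ ≤ Real.exp (Real.log (8 * (C₁ + 1))) / 8 := by
        rw [Real.exp_log (by positivity)]
        linarith
      have h6 : C₁ * Real.exp (-(η / 4) * (u ^ (3 / 2 : ℝ) - Real.log 2))
          ≤ 1 / 8 * Real.exp (-(N * u)) := by
        calc C₁ * Real.exp (-(η / 4) * (u ^ (3 / 2 : ℝ) - Real.log 2))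
            ≤ Real.exp (Real.log (8 * (C₁ + 1))) / 8 *
              Real.exp (-(η / 4) * (u ^ (3 / 2 : ℝ) - Real.log 2)) :=
              mul_le_mul_of_nonneg_right h5 (Real.exp_pos _).le
          _ = 1 / 8 * Real.exp (Real.log (8 * (C₁ + 1)) +
              -(η / 4) * (u ^ (3 / 2 : ℝ) - Real.log 2)) := by
              rw [Real.exp_add]; ring
          _ ≤ 1 / 8 * Real.exp (-(N * u)) := by
              apply mul_le_mul_of_nonneg_left _ (by norm_num)
              apply Real.exp_le_exp.2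
              linarith
      have h7 := mul_le_mul_of_nonneg_left h6 (show (0 : ℝ) ≤ 2 * A by positivity)
      linarith
    have t2 : 2 * (A : ℝ) ^ (1 - η / 2) * (ρ : ℝ) ^ K * ((Z : ℝ) ^ v * (1 + Real.log Z) ^ 2)
        ≤ A * (1 / 4 * Real.exp (-(N * u))) := by
      have a1 : (Z : ℝ) ^ v ≤ Real.exp (η / 16 * Real.log A) := by
        have b1 : (Z : ℝ) ^ v = Real.exp (Real.log Z * v) := by
          rw [Real.rpow_def_of_pos (by linarith)]
        rw [b1]
        apply Real.exp_le_exp.2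
        have b2 : Real.log Z * v ≤ u ^ Be * v := mul_le_mul_of_nonneg_right hlogZ hv0
        have b3 : u ^ Be * v = θ₁ * w * u ^ (κ - ε / 2) := by
          have : u ^ Be = u ^ (κ - ε / 2) * u := by
            rw [← Real.rpow_add_one hu0.ne']
            congr 1
            rw [hBe]
            ring
          rw [this, hv]
          field_simp
        have b4 : θ₁ * w * u ^ (κ - ε / 2) ≤ (η / 16) * u ^ (ε / 2) * u ^ (κ - ε / 2) :=
          mul_le_mul_of_nonneg_right e6 (by positivity)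
        have b5 : (η / 16) * u ^ (ε / 2) * u ^ (κ - ε / 2) = (η / 16) * u ^ κ := by
          rw [mul_assoc, ← Real.rpow_add hu0]
          congr 2
          ring
        have b6 : (η / 16) * u ^ κ ≤ η / 16 * Real.log A :=
          mul_le_mul_of_nonneg_left hlogA (by positivity)
        linarith
      have a2 : (1 + Real.log Z) ^ 2 ≤ Real.exp (η / 16 * Real.log A) := by
        have b1 : 1 ≤ u ^ Be := Real.one_le_rpow (by linarith) hBe0.le
        have b2 : 1 + Real.log Z ≤ 2 * u ^ Be := by linarith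
        have b3 : (2 : ℝ) * u ^ Be = Real.exp (Real.log 2 + Be * w) := by
          rw [Real.exp_add, Real.exp_log (by norm_num), Real.rpow_def_of_pos hu0, mul_comm Be]
        have b4 : (1 + Real.log Z) ^ 2 ≤ (Real.exp (Real.log 2 + Be * w)) ^ 2 := by
          rw [← b3]
          exact pow_le_pow_left₀ (by linarith) b2 2
        refine b4.trans ?_
        rw [← Real.exp_nat_mul]
        apply Real.exp_le_exp.2
        have b5 : w ≤ u := by
          have := Real.log_le_sub_one_of_pos hu0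
          linarith
        have b6 : (η / 16) * u ^ κ ≤ η / 16 * Real.log A :=
          mul_le_mul_of_nonneg_left hlogA (by positivity)
        have b7 : Be * w ≤ Be * u := mul_le_mul_of_nonneg_left b5 hBe0.le
        push_cast
        linarith
      have a3 : (A : ℝ) ^ (1 - η / 2) = Real.exp ((1 - η / 2) * Real.log A) := by
        rw [Real.rpow_def_of_pos hA0, mul_comm]
      have a4 : (ρ : ℝ) ^ K ≤ Real.exp (η / 4 * Real.log A) := by
        refine hρK.trans (le_of_eq ?_)
        rw [Real.rpow_def_of_pos hA0, mul_comm]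
      have a5 : (Z : ℝ) ^ v * (1 + Real.log Z) ^ 2
          ≤ Real.exp (η / 16 * Real.log A) * Real.exp (η / 16 * Real.log A) :=
        mul_le_mul a1 a2 (by positivity) (Real.exp_pos _).le
      rw [a3]
      calc 2 * Real.exp ((1 - η / 2) * Real.log A) * (ρ : ℝ) ^ K *
            ((Z : ℝ) ^ v * (1 + Real.log Z) ^ 2)
          ≤ 2 * Real.exp ((1 - η / 2) * Real.log A) * Real.exp (η / 4 * Real.log A) *
            (Real.exp (η / 16 * Real.log A) * Real.exp (η / 16 * Real.log A)) := by
            apply mul_le_mul _ a5 (by positivity) (by positivity)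
            exact mul_le_mul_of_nonneg_left a4 (by positivity)
        _ = 2 * (Real.exp (Real.log A) * Real.exp (-(η / 8) * Real.log A)) := by
            have : Real.exp (Real.log A) * Real.exp (-(η / 8) * Real.log A)
                = Real.exp ((1 - η / 2) * Real.log A) * Real.exp (η / 4 * Real.log A) *
                  (Real.exp (η / 16 * Real.log A) * Real.exp (η / 16 * Real.log A)) := by
              rw [← Real.exp_add, ← Real.exp_add, ← Real.exp_add, ← Real.exp_add]
              congr 1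
              ring
            rw [this]
            ring
        _ = A * (2 * Real.exp (-(η / 8) * Real.log A)) := by
            rw [Real.exp_log hA0]
            ring
        _ ≤ A * (1 / 4 * Real.exp (-(N * u))) := by
            apply mul_le_mul_of_nonneg_left _ hA0.le
            have b1 : (1 / 8 : ℝ) = Real.exp (-Real.log 8) := by
              rw [Real.exp_neg, Real.exp_log (by norm_num)]
              norm_num
            have b2 : Real.exp (-(η / 8) * Real.log A) ≤ 1 / 8 * Real.exp (-(N * u)) := by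
              rw [b1, ← Real.exp_add]
              apply Real.exp_le_exp.2
              have b6 : (η / 8) * u ^ κ ≤ η / 8 * Real.log A :=
                mul_le_mul_of_nonneg_left hlogA (by positivity)
              linarith
            linarith
    linarith
  rw [hsplit, div_eq_mul_inv, ← Real.exp_neg]
  linarith

end Pool.Agent.Lib.MP_757a88_nt.PS
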