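import Pool.Agent.Lib.MP_757a88_nt.Mg.G004
import Pool.Agent.Lib.MP_757a88_nt.Mg.G001
import Pool.Agent.Lib.MP_757a88_nt.Mg.G002

/-!
# Pseudoprimes, B6a: the bound for a base with few bad primes
-/

set_option autoImplicit false

noncomputable section

namespace Pool.Agent.Lib.MP_757a88_nt.PS

open Filter

private theorem B6a_asymp (c : ℝ) (hc : 0 < c) : ∀ᶠ t : ℝ in atTop,
    Real.exp (t ^ (3 / 2 : ℝ)) ^ (c * Real.log t / t) * (1 + t ^ (3 / 2 : ℝ)) ≤ Real.exp (t / 2) := by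
  have h1 : ∀ᶠ t : ℝ in atTop, ‖Real.log t‖ ≤ (1 / c) * ‖t ^ (1 / 4 : ℝ)‖ :=
    (isLittleO_log_rpow_atTop (by norm_num : (0 : ℝ) < 1 / 4)).bound (by positivity)
  have h2 : ∀ᶠ t : ℝ in atTop, ‖t ^ (3 / 2 : ℝ)‖ ≤ (1 / 2) * ‖Real.exp ((1 / 4) * t)‖ :=
    (isLittleO_rpow_exp_pos_mul_atTop (3 / 2) (by norm_num : (0 : ℝ) < 1 / 4)).bound (by norm_num)
  have h3 : ∀ᶠ t : ℝ in atTop, (2 : ℝ) ≤ Real.exp ((1 / 4) * t) := by
    filter_upwards [eventually_ge_atTop (4 : ℝ)] with t ht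
    have := Real.add_one_le_exp ((1 / 4) * t)
    linarith
  filter_upwards [h1, h2, h3, eventually_ge_atTop (256 : ℝ)] with t g1 g2 g3 ht
  have ht0 : (0 : ℝ) < t := by linarith
  have hl0 : 0 ≤ Real.log t := Real.log_nonneg (by linarith)
  rw [Real.norm_of_nonneg hl0, Real.norm_of_nonneg (by positivity)] at g1
  rw [Real.norm_of_nonneg (by positivity), Real.norm_of_nonneg (by positivity)] at g2
  have e1 : Real.exp (t ^ (3 / 2 : ℝ)) ^ (c * Real.log t / t)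
      = Real.exp (c * Real.log t * t ^ (1 / 2 : ℝ)) := by
    rw [← Real.exp_mul]
    congr 1
    have : t ^ (3 / 2 : ℝ) = t ^ (1 / 2 : ℝ) * t := by
      rw [show (3 / 2 : ℝ) = 1 / 2 + 1 by norm_num, Real.rpow_add ht0, Real.rpow_one]
    rw [this]
    field_simp
  have e2 : c * Real.log t * t ^ (1 / 2 : ℝ) ≤ (1 / 4) * t := by
    have a1 : c * Real.log t ≤ t ^ (1 / 4 : ℝ) := by
      calc c * Real.log t ≤ c * ((1 / c) * t ^ (1 / 4 : ℝ)) :=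
            mul_le_mul_of_nonneg_left g1 hc.le
        _ = t ^ (1 / 4 : ℝ) := by field_simp
    have a2 : t ^ (1 / 4 : ℝ) * t ^ (1 / 2 : ℝ) = t ^ (3 / 4 : ℝ) := by
      rw [← Real.rpow_add ht0]; norm_num
    have a3 : t ^ (3 / 4 : ℝ) * t ^ (1 / 4 : ℝ) = t := by
      rw [← Real.rpow_add ht0]; norm_num
    have a4 : (4 : ℝ) ≤ t ^ (1 / 4 : ℝ) := by
      have : (256 : ℝ) ^ (1 / 4 : ℝ) = 4 := by
        rw [show (256 : ℝ) = 4 ^ (4 : ℝ) by norm_num,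
          ← Real.rpow_mul (by norm_num : (0 : ℝ) ≤ 4)]
        norm_num
      have h256 : (256 : ℝ) ^ (1 / 4 : ℝ) ≤ t ^ (1 / 4 : ℝ) :=
        Real.rpow_le_rpow (by norm_num) ht (by norm_num)
      linarith
    have a5 : 0 ≤ t ^ (3 / 4 : ℝ) := by positivity
    have a6 : 0 ≤ t ^ (1 / 2 : ℝ) := by positivity
    have a7 : c * Real.log t * t ^ (1 / 2 : ℝ) ≤ t ^ (3 / 4 : ℝ) := by
      rw [← a2]; exact mul_le_mul_of_nonneg_right a1 a6
    have a8 : t ^ (3 / 4 : ℝ) * 4 ≤ t := by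
      calc t ^ (3 / 4 : ℝ) * 4 ≤ t ^ (3 / 4 : ℝ) * t ^ (1 / 4 : ℝ) :=
            mul_le_mul_of_nonneg_left a4 a5
        _ = t := a3
    linarith
  rw [e1]
  have e3 : 1 + t ^ (3 / 2 : ℝ) ≤ Real.exp ((1 / 4) * t) := by linarith
  calc Real.exp (c * Real.log t * t ^ (1 / 2 : ℝ)) * (1 + t ^ (3 / 2 : ℝ))
      ≤ Real.exp ((1 / 4) * t) * Real.exp ((1 / 4) * t) :=
        mul_le_mul (Real.exp_le_exp.2 e2) e3 (by positivity) (by positivity)
    _ = Real.exp (t / 2) := by rw [← Real.exp_add]; congr 1; ring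

/-- PROOF. `θ = κ / 2 - ε`, `θ₁ = κ / 2 - ε / 2`, `T = θ + 1`, `B = κ + 1 - ε / 2`, `th = κ / 2 - ε / 4`, `v = θ₁ l3 / l2`; `main_bound` with `sys_base` (constant `2 log a ≤ 2 log x`), `Q = True`. For `M` as there let
`S` be the union of the prime factors; `euler_le` with `g = 1`, `c = 1 - v`: the sum is at most `exp (4 ∑_{p ∈ S} p ^ (-1 + v))`. The `p ∈ S` with `p ≤ y = exp (l2 ^ (3 / 2))` give at most
`y ^ v (1 + log y) ≤ sqrt (log x)` (`sum_small_le`; `v l2 ^ (3 / 2) = θ₁ l3 l2 ^ (1 / 2)`); those with `p > exp (l2 ^ B)` at most `1` (`large_small`); the others are in `badP` (at most `1` by the hypothesis)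
or satisfy `p ^ th < orderOf a` (`good_small`, at most `sqrt (log x)`). `4 (2 sqrt (log x) + 2) ≤ η LL x` by `eventually_sqrt_le_LL`. -/
theorem count_of_good_base {κ ε : ℝ} (hκ : 1 < κ) (hκ2 : κ ≤ 2) (hε : 0 < ε)
    (hε1 : ε ≤ (κ - 1) / 2) :
    ∀ᶠ x : ℝ in atTop, ∀ a : ℕ, 2 ≤ a → (a : ℝ) ≤ x →
      ∑ p ∈ badP (κ / 2 - ε / 4) (Real.exp (l2 x ^ (3 / 2 : ℝ)))
          ⌊Real.exp (l2 x ^ (κ + 1 - ε / 2))⌋₊ a, (p : ℝ) ^ (-1 + (κ / 2 - ε / 2) * l3 x / l2 x) ≤ 1 →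
      (({n : ℕ | (n : ℝ) ≤ x ∧ Nat.FermatPsp n a}.ncard : ℕ) : ℝ)
        ≤ x / Real.exp ((κ / 2 - ε) * LL x) := by
  classical
  obtain ⟨η, hη, hmain⟩ := main_bound (θ := κ / 2 - ε) (θ₁ := κ / 2 - ε / 2)
    (T := κ / 2 - ε + 1) (by linarith) (by linarith) (by linarith)
  have hθ₁ : 0 < κ / 2 - ε / 2 := by linarith
  have hv : ∀ᶠ x : ℝ in atTop, (κ / 2 - ε / 2) * l3 x / l2 x ≤ 1 / 2 := by
    have h := (tendsto_l3_div_l2.const_mul (κ / 2 - ε / 2))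
    rw [mul_zero] at h
    filter_upwards [h.eventually (ge_mem_nhds (by norm_num : (0 : ℝ) < 1 / 2))] with x hx
    rw [mul_div_assoc]; exact hx
  filter_upwards [hmain, hv,
    good_small (θ₁ := κ / 2 - ε / 2) (th := κ / 2 - ε / 4) (T := κ / 2 - ε + 1) hθ₁
      (by linarith) (by linarith),
    large_small (θ₁ := κ / 2 - ε / 2) (B := κ + 1 - ε / 2) (T := κ / 2 - ε + 1) hθ₁
      (by linarith) (by linarith),
    tendsto_l2.eventually (B6a_asymp (κ / 2 - ε / 2) hθ₁),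
    eventually_sqrt_le_LL (16 / η), tendsto_l2.eventually_ge_atTop 1,
    tendsto_l3.eventually_ge_atTop 0, eventually_ge_atTop (Real.exp 1)]
    with x hmainx hvx hgood hlarge hasy hLL hl2 hl3 hxe a ha hax hbad
  have hx0 : 0 < x := lt_of_lt_of_le (Real.exp_pos 1) hxe
  have hlogx : 1 ≤ Real.log x := by
    rw [Real.le_log_iff_exp_le hx0]; exact hxe
  have hfin : {n : ℕ | (n : ℝ) ≤ x ∧ Nat.FermatPsp n a}.Finite :=
    (Set.finite_Icc 0 ⌊x⌋₊).subset fun n hn => ⟨Nat.zero_le _, Nat.le_floor hn.1⟩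
  rw [Set.ncard_eq_toFinset_card _ hfin]
  have hloga : Real.log a ≤ Real.log x :=
    Real.log_le_log (by exact_mod_cast (by omega : 0 < a)) hax
  refine hmainx (fun p => ¬ p ∣ a) (fun p => orderOf (a : ZMod p)) (2 * Real.log a)
    (fun _ => True) (sys_base ha) (by linarith) (fun _ _ _ _ _ => trivial) ?_ hfin.toFinset ?_
  swap
  · intro n hn
    have hn' : (n : ℝ) ≤ x ∧ Nat.FermatPsp n a := by simpa using hn
    exact ⟨hn'.1, NN_of_psp ha hn'.2, trivial⟩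
  intro k hk hkT M hM
  set v : ℝ := (κ / 2 - ε / 2) * l3 x / l2 x with hvdef
  have hv0 : 0 ≤ v := by positivity
  set S : Finset ℕ := M.biUnion fun m => m.primeFactors with hS
  have hSp : ∀ p ∈ S, p.Prime ∧ ¬ p ∣ a ∧ orderOf (a : ZMod p) ∣ k := by
    intro p hp
    rw [hS, Finset.mem_biUnion] at hp
    obtain ⟨m, hm, hpm⟩ := hp
    have hpp := Nat.prime_of_mem_primeFactors hpm
    exact ⟨hpp, (hM m hm).2.2 p hpp (Nat.dvd_of_mem_primeFactors hpm)⟩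
  have heul := euler_le (S := S) (fun p hp => (hSp p hp).1) (c := 1 - v) (by linarith)
    (g := fun _ => 1) (fun _ => zero_le_one) (fun _ => le_refl 1) M (fun m hm => ⟨(hM m hm).1,
      fun p hp hpm => by
        rw [hS, Finset.mem_biUnion]
        exact ⟨m, hm, Nat.mem_primeFactors.2 ⟨hp, hpm, (hM m hm).1⟩⟩⟩)
  have hneg : -(1 - v) = -1 + v := by ring
  simp only [hneg, Finset.prod_const_one, mul_one, one_mul] at heul
  refine heul.trans (Real.exp_le_exp.2 ?_)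
  -- the four parts
  set y : ℝ := Real.exp (l2 x ^ (3 / 2 : ℝ)) with hy
  have hy1 : 1 ≤ y := Real.one_le_exp (by positivity)
  have hnn : ∀ p : ℕ, 0 ≤ (p : ℝ) ^ (-1 + v) := fun p => by positivity
  have s1 : ∑ p ∈ S.filter (fun p : ℕ => (p : ℝ) ≤ y), (p : ℝ) ^ (-1 + v) ≤ Real.sqrt (Real.log x) := by
    have h := sum_small_le hy1 hv0 (S.filter (fun p : ℕ => (p : ℝ) ≤ y)) (fun p hp => by
      rw [Finset.mem_filter] at hp
      exact ⟨(hSp p hp.1).1.one_lt.le, hp.2⟩)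
    refine h.trans ?_
    have h2 : Real.log y = l2 x ^ (3 / 2 : ℝ) := by rw [hy, Real.log_exp]
    have h3 : Real.sqrt (Real.log x) = Real.exp (l2 x / 2) := by
      rw [Real.sqrt_eq_rpow, Real.rpow_def_of_pos (by linarith)]
      congr 1
      unfold l2
      ring
    rw [h2, h3]
    exact hasy
  have s2 : ∑ p ∈ S.filter (fun p : ℕ => Real.exp (l2 x ^ (κ + 1 - ε / 2)) < (p : ℝ)),
      (p : ℝ) ^ (-1 + v) ≤ 1 :=
    hlarge _ _ _ (sys_base ha) (by linarith) k hk hkT _ (fun p hp => by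
      rw [Finset.mem_filter] at hp
      exact ⟨(hSp p hp.1).1, (hSp p hp.1).2.1, (hSp p hp.1).2.2, hp.2⟩)
  have s3 : ∑ p ∈ S.filter (fun p : ℕ => (p : ℝ) ^ (κ / 2 - ε / 4) < orderOf (a : ZMod p)),
      (p : ℝ) ^ (-1 + v) ≤ Real.sqrt (Real.log x) :=
    hgood _ _ _ (sys_base ha) k hk hkT _ (fun p hp => by
      rw [Finset.mem_filter] at hp
      exact ⟨(hSp p hp.1).1, (hSp p hp.1).2.1, (hSp p hp.1).2.2, hp.2⟩)
  have hsub : S ⊆ (S.filter (fun p : ℕ => (p : ℝ) ≤ y)) ∪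
      (S.filter (fun p : ℕ => Real.exp (l2 x ^ (κ + 1 - ε / 2)) < (p : ℝ))) ∪
      (S.filter (fun p : ℕ => (p : ℝ) ^ (κ / 2 - ε / 4) < orderOf (a : ZMod p))) ∪
      badP (κ / 2 - ε / 4) y ⌊Real.exp (l2 x ^ (κ + 1 - ε / 2))⌋₊ a := by
    intro p hp
    simp only [Finset.mem_union, Finset.mem_filter, mem_badP]
    by_cases c1 : (p : ℝ) ≤ y
    · exact Or.inl (Or.inl (Or.inl ⟨hp, c1⟩))
    by_cases c2 : Real.exp (l2 x ^ (κ + 1 - ε / 2)) < (p : ℝ)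
    · exact Or.inl (Or.inl (Or.inr ⟨hp, c2⟩))
    by_cases c3 : (p : ℝ) ^ (κ / 2 - ε / 4) < orderOf (a : ZMod p)
    · exact Or.inl (Or.inr ⟨hp, c3⟩)
    right
    refine ⟨Nat.le_floor (not_lt.1 c2), (hSp p hp).1, not_le.1 c1, (hSp p hp).2.1, not_lt.1 c3⟩
  have hsum : ∑ p ∈ S, (p : ℝ) ^ (-1 + v) ≤ 2 * Real.sqrt (Real.log x) + 2 := by
    refine (Finset.sum_le_sum_of_subset_of_nonneg hsub fun p _ _ => hnn p).trans ?_
    have u : ∀ A B : Finset ℕ, ∑ p ∈ A ∪ B, (p : ℝ) ^ (-1 + v)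
        ≤ ∑ p ∈ A, (p : ℝ) ^ (-1 + v) + ∑ p ∈ B, (p : ℝ) ^ (-1 + v) := by
      intro A B
      have := Finset.sum_union_inter (s₁ := A) (s₂ := B) (f := fun p : ℕ => (p : ℝ) ^ (-1 + v))
      have h0 : 0 ≤ ∑ p ∈ A ∩ B, (p : ℝ) ^ (-1 + v) := Finset.sum_nonneg fun p _ => hnn p
      linarith
    have u1 := u ((S.filter (fun p : ℕ => (p : ℝ) ≤ y)) ∪
      (S.filter (fun p : ℕ => Real.exp (l2 x ^ (κ + 1 - ε / 2)) < (p : ℝ))) ∪
      (S.filter (fun p : ℕ => (p : ℝ) ^ (κ / 2 - ε / 4) < orderOf (a : ZMod p))))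
      (badP (κ / 2 - ε / 4) y ⌊Real.exp (l2 x ^ (κ + 1 - ε / 2))⌋₊ a)
    have u2 := u ((S.filter (fun p : ℕ => (p : ℝ) ≤ y)) ∪
      (S.filter (fun p : ℕ => Real.exp (l2 x ^ (κ + 1 - ε / 2)) < (p : ℝ))))
      (S.filter (fun p : ℕ => (p : ℝ) ^ (κ / 2 - ε / 4) < orderOf (a : ZMod p)))
    have u3 := u (S.filter (fun p : ℕ => (p : ℝ) ≤ y))
      (S.filter (fun p : ℕ => Real.exp (l2 x ^ (κ + 1 - ε / 2)) < (p : ℝ)))
    linarith
  have hsq : 1 ≤ Real.sqrt (Real.log x) := by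
    rw [Real.le_sqrt' (by norm_num)]; linarith
  have hfinal : 16 * Real.sqrt (Real.log x) ≤ η * LL x := by
    have h := mul_le_mul_of_nonneg_left hLL hη.le
    have e : η * (16 / η * Real.sqrt (Real.log x)) = 16 * Real.sqrt (Real.log x) := by
      field_simp
    linarith
  linarith

end Pool.Agent.Lib.MP_757a88_nt.PS
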