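import Pool.Agent.Lib.MP_757a88_nt.PS.B5
import Pool.Agent.Lib.MP_757a88_nt.PS.B6a

/-!
# Pseudoprimes, B6: the upper bound for almost all bases at one scale
-/

set_option autoImplicit false

noncomputable section

namespace Pool.Agent.Lib.MP_757a88_nt.PS

open Filter

/-- PROOF. We may assume `ε ≤ (κ - 1) / 2` (for larger `ε` the set is smaller, `LL x > 0`). The bases in the set have a bad sum `> 1` by `count_of_good_base`, so they are at most
`A / (log x) ^ N` by `few_bad`. -/
theorem almost_all_bases (κ ε : ℝ) (hκ : 1 < κ) (hκ2 : κ ≤ 2) (hε : 0 < ε) (N : ℕ) :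
    ∀ᶠ x : ℝ in atTop, ∀ A : ℕ, Real.exp (Real.log (Real.log x) ^ κ) ≤ A → (A : ℝ) ≤ x →
      (({a : ℕ | 2 ≤ a ∧ a ≤ A ∧
          x / Real.exp ((κ / 2 - ε) * (Real.log x * Real.log (Real.log (Real.log x))
            / Real.log (Real.log x)))
            < (({n : ℕ | (n : ℝ) ≤ x ∧ Nat.FermatPsp n a}.ncard : ℕ) : ℝ)}.ncard : ℕ) : ℝ)
        ≤ A / Real.log x ^ N := by
  have hε' : 0 < min ε ((κ - 1) / 2) := lt_min hε (by linarith)
  filter_upwards [count_of_good_base hκ hκ2 hε' (min_le_right _ _),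
    few_bad hκ hκ2 hε' (min_le_right _ _) N, eventually_sqrt_le_LL 0, eventually_ge_atTop 0]
    with x h1 h2 h3 hx0 A hA hAx
  set S : Set ℕ := {a : ℕ | 2 ≤ a ∧ a ≤ A ∧
          x / Real.exp ((κ / 2 - ε) * (Real.log x * Real.log (Real.log (Real.log x))
            / Real.log (Real.log x)))
            < (({n : ℕ | (n : ℝ) ≤ x ∧ Nat.FermatPsp n a}.ncard : ℕ) : ℝ)} with hS
  have hfin : S.Finite := (Set.finite_Icc 2 A).subset fun a ha => ⟨ha.1, ha.2.1⟩
  have hLL : 0 ≤ LL x := by simpa using h3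
  have key := h2 A hA hAx hfin.toFinset (fun a ha => by
    have ha' : a ∈ S := by simpa using ha
    refine ⟨ha'.1, ha'.2.1, ?_⟩
    by_contra hcon
    rw [not_lt] at hcon
    have hax : (a : ℝ) ≤ x := le_trans (by exact_mod_cast ha'.2.1) hAx
    have h4 := h1 a ha'.1 hax hcon
    have h5 : x / Real.exp ((κ / 2 - min ε ((κ - 1) / 2)) * LL x)
        ≤ x / Real.exp ((κ / 2 - ε) * LL x) := by
      apply div_le_div_of_nonneg_left hx0 (Real.exp_pos _)
      apply Real.exp_le_exp.2
      apply mul_le_mul_of_nonneg_right _ hLL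
      have := min_le_left ε ((κ - 1) / 2)
      linarith
    have h6 := ha'.2.2
    have h7 : (κ / 2 - ε) * (Real.log x * Real.log (Real.log (Real.log x))
            / Real.log (Real.log x)) = (κ / 2 - ε) * LL x := rfl
    rw [h7] at h6
    linarith)
  rw [Set.ncard_eq_toFinset_card S hfin]
  exact key

end Pool.Agent.Lib.MP_757a88_nt.PS
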