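import Pool.Agent.Lib.MP_757a88_nt.PS.B6
import Pool.Agent.Lib.MP_757a88_nt.Mg.G003

/-!
# Pseudoprimes, B8: almost all bases
-/

set_option autoImplicit false

noncomputable section

namespace Pool.Agent.Lib.MP_757a88_nt.PS

open Filter

private lemma B8_LL_nonneg {x : ℝ} (hx : Real.exp (Real.exp 1) ≤ x) : 0 ≤ LL x := by
  have h1 : Real.exp 1 ≤ Real.log x := by
    rw [Real.le_log_iff_exp_le (lt_of_lt_of_le (Real.exp_pos _) hx)]; exact hx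
  have h0 : 0 < Real.log x := lt_of_lt_of_le (Real.exp_pos _) h1
  have h2 : 1 ≤ Real.log (Real.log x) := by
    rw [Real.le_log_iff_exp_le h0]; exact h1
  have h3 : 0 ≤ Real.log (Real.log (Real.log x)) := Real.log_nonneg h2
  unfold LL l3 l2
  positivity

/-- THEOREM T1. PROOF. We may assume `ε ≤ κ` (for `ε > κ` the set is smaller, as `LL x > 0` for `x ≥ a` large; the finitely many small `a` may be put in the part `a ≤ sqrt A`).
`κ' = max ((1 + κ) / 2) (κ - ε / 2) < κ`; `almost_all_bases` with `κ'`, `ε / 4`, `N + 2` at `x = 2 ^ j`, `A = 2 ^ i`; `exists_dyadic`, `count_dyadic` with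
`E i j a` = the last two conditions of `exists_dyadic` (and `j ≥ i ≥ a₀`). The set in question is finite (contained in `Icc 2 A`). -/
theorem almost_all_fixed (κ ε : ℝ) (hκ : 1 < κ) (hκ2 : κ ≤ 2) (hε : 0 < ε) (N : ℕ) :
    ∀ᶠ A : ℕ in atTop, (({a : ℕ | 2 ≤ a ∧ a ≤ A ∧ ∃ x : ℝ, (a : ℝ) ≤ x ∧
        x ≤ Real.exp (Real.exp (Real.log a ^ (1 / κ))) ∧
        x / Real.exp ((κ / 2 - ε) * LL x)
          < (({n : ℕ | (n : ℝ) ≤ x ∧ Nat.FermatPsp n a}.ncard : ℕ) : ℝ)}.ncard : ℕ) : ℝ)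
      ≤ A / Real.log A ^ N := by
  set e : ℝ := min ε κ with he
  have he0 : 0 < e := lt_min hε (by linarith)
  have heε : e ≤ ε := min_le_left _ _
  have heκ : e ≤ κ := min_le_right _ _
  set κ' : ℝ := max ((1 + κ) / 2) (κ - e / 2) with hk
  have hκ'1 : 1 < κ' := lt_of_lt_of_le (by linarith) (le_max_left _ _)
  have hκ'κ : κ' < κ := max_lt (by linarith) (by linarith)
  have hκ'e : κ - e / 2 ≤ κ' := le_max_right _ _
  obtain ⟨a₁, ha₁⟩ := eventually_atTop.1 (exists_dyadic hκ'1 hκ'κ he0 heκ hκ'e)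
  obtain ⟨x₀, hx₀⟩ := eventually_atTop.1
    (almost_all_bases κ' (e / 4) hκ'1 (by linarith) (by linarith) (N + 2))
  obtain ⟨a₀, ha₀⟩ := pow_unbounded_of_one_lt x₀ (one_lt_two : (1 : ℝ) < 2)
  set E : ℕ → ℕ → ℕ → Prop := fun i j a =>
    Real.exp (l2 ((2 : ℝ) ^ j) ^ κ') ≤ (2 : ℝ) ^ i ∧
        (2 : ℝ) ^ j / Real.exp ((κ' / 2 - e / 4) * LL ((2 : ℝ) ^ j))
          < (({n : ℕ | (n : ℝ) ≤ (2 : ℝ) ^ j ∧ Nat.FermatPsp n a}.ncard : ℕ) : ℝ) with hEdef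
  have hE : ∀ i j : ℕ, a₀ ≤ i → i ≤ j → ∀ G : Finset ℕ, (∀ a ∈ G, 2 ≤ a ∧ a ≤ 2 ^ i ∧ E i j a) →
      (G.card : ℝ) ≤ (2 : ℝ) ^ i / Real.log ((2 : ℝ) ^ j) ^ (N + 2) := by
    intro i j hi hij G hG
    have hlog : 0 ≤ Real.log ((2 : ℝ) ^ j) := Real.log_nonneg (one_le_pow₀ (by norm_num))
    rcases G.eq_empty_or_nonempty with rfl | ⟨b, hb⟩
    · simp only [Finset.card_empty, Nat.cast_zero]
      positivity
    · have hEb := (hG b hb).2.2
      have hxj : x₀ ≤ (2 : ℝ) ^ j :=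
        ha₀.le.trans (pow_le_pow_right₀ (by norm_num) (hi.trans hij))
      have key := hx₀ ((2 : ℝ) ^ j) hxj (2 ^ i)
        (by push_cast; exact hEb.1)
        (by push_cast; exact pow_le_pow_right₀ (by norm_num) hij)
      rw [Nat.cast_pow, Nat.cast_ofNat] at key
      refine le_trans ?_ key
      have hfin : ({a : ℕ | 2 ≤ a ∧ a ≤ 2 ^ i ∧
          (2 : ℝ) ^ j / Real.exp ((κ' / 2 - e / 4) * (Real.log ((2 : ℝ) ^ j) *
            Real.log (Real.log (Real.log ((2 : ℝ) ^ j))) / Real.log (Real.log ((2 : ℝ) ^ j))))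
            < (({n : ℕ | (n : ℝ) ≤ (2 : ℝ) ^ j ∧ Nat.FermatPsp n a}.ncard : ℕ) : ℝ)}).Finite :=
        (Set.finite_Iic (2 ^ i)).subset fun a ha => ha.2.1
      have hsub : (G : Set ℕ) ⊆ {a : ℕ | 2 ≤ a ∧ a ≤ 2 ^ i ∧
          (2 : ℝ) ^ j / Real.exp ((κ' / 2 - e / 4) * (Real.log ((2 : ℝ) ^ j) *
            Real.log (Real.log (Real.log ((2 : ℝ) ^ j))) / Real.log (Real.log ((2 : ℝ) ^ j))))
            < (({n : ℕ | (n : ℝ) ≤ (2 : ℝ) ^ j ∧ Nat.FermatPsp n a}.ncard : ℕ) : ℝ)} := by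
        intro a ha
        have h := hG a ha
        exact ⟨h.1, h.2.1, h.2.2.2⟩
      have hc := Set.ncard_le_ncard hsub hfin
      rw [Set.ncard_coe_finset] at hc
      exact Nat.cast_le.2 hc
  have hsq : ∀ᶠ A : ℕ in atTop, max (a₁ : ℝ) (Real.exp (Real.exp 1)) ≤ Real.sqrt A :=
    (Real.tendsto_sqrt_atTop.comp tendsto_natCast_atTop_atTop).eventually_ge_atTop _
  filter_upwards [count_dyadic N a₀ E hE, hsq] with A hA hsA
  have hfin : ({a : ℕ | 2 ≤ a ∧ a ≤ A ∧ ∃ x : ℝ, (a : ℝ) ≤ x ∧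
        x ≤ Real.exp (Real.exp (Real.log a ^ (1 / κ))) ∧
        x / Real.exp ((κ / 2 - ε) * LL x)
          < (({n : ℕ | (n : ℝ) ≤ x ∧ Nat.FermatPsp n a}.ncard : ℕ) : ℝ)}).Finite :=
    (Set.finite_Iic A).subset fun a ha => ha.2.1
  rw [Set.ncard_eq_toFinset_card _ hfin]
  refine hA _ fun a ha => ?_
  rw [Set.Finite.mem_toFinset] at ha
  obtain ⟨h2, hAa, x, hax, hxu, hcount⟩ := ha
  refine ⟨h2, hAa, fun hsa => ?_⟩
  have h3 : a₁ ≤ a := by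
    have : (a₁ : ℝ) ≤ a := (le_max_left _ _).trans (hsA.trans hsa.le)
    exact_mod_cast this
  have hxe : Real.exp (Real.exp 1) ≤ x :=
    (le_max_right _ _).trans (hsA.trans (hsa.le.trans hax))
  have hLL := B8_LL_nonneg hxe
  have hx0 : 0 ≤ x := (Real.exp_pos _).le.trans hxe
  have hlt : x / Real.exp ((κ / 2 - e) * LL x)
        < (({n : ℕ | (n : ℝ) ≤ x ∧ Nat.FermatPsp n a}.ncard : ℕ) : ℝ) := by
    refine lt_of_le_of_lt ?_ hcount
    refine div_le_div_of_nonneg_left hx0 (Real.exp_pos _) ?_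
    refine Real.exp_le_exp.2 ?_
    exact mul_le_mul_of_nonneg_right (by linarith) hLL
  obtain ⟨i, j, hij, h4, h5, h6, h7⟩ := ha₁ a h3 x hax hxu hlt
  exact ⟨i, j, hij, h4, h5, h6, h7⟩

end Pool.Agent.Lib.MP_757a88_nt.PS
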