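import Pool.Agent.Lib.MP_757a88_nt.Mg.G005
import Pool.Agent.Lib.MP_757a88_nt.Mg.G002

/-!
# Pseudoprimes, C3: pseudoprimes to several independent bases
-/

set_option autoImplicit false

noncomputable section

namespace Pool.Agent.Lib.MP_757a88_nt.PS

open Filter

/-- THEOREM T3. PROOF. We may assume `ε < r / (r + 1)` (monotonicity in `ε`, `LL x > 0`). Let `θ = r / (r + 1) - ε < θ₁ < th < r / (r + 1)`, `T = θ + 1`;
`main_bound` with the system `sys_bases` (constant `2 log (a 0) ≤ 2 log x` for large `x`), `Q = True`, `s` = the set of the `n ≤ x` (finite). For `M` as there, `S` = the union of the prime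
factors: `euler_le` with `g = 1`, `c = 1 - v`: the sum is at most `exp (4 ∑_{p ∈ S} p ^ (-1 + v))`, `S` = good primes (`good_small`: `≤ sqrt (log x)`) and bad primes (`sum_bad_le`: `≤ C₂`), and
`4 (sqrt (log x) + C₂) ≤ η LL x` (`eventually_sqrt_le_LL` with `K = 8 / η`). -/
theorem several_bases (r : ℕ) (hr : 1 ≤ r) (a : Fin r → ℕ) (ha : ∀ i, 2 ≤ a i)
    (hind : ∀ e f : Fin r → ℕ, ∏ i, a i ^ e i = ∏ i, a i ^ f i → e = f) (ε : ℝ) (hε : 0 < ε) :
    ∀ᶠ x : ℝ in atTop, (({n : ℕ | (n : ℝ) ≤ x ∧ ∀ i, Nat.FermatPsp n (a i)}.ncard : ℕ) : ℝ)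
      ≤ x / Real.exp (((r : ℝ) / (r + 1) - ε) * (Real.log x * Real.log (Real.log (Real.log x))
        / Real.log (Real.log x))) := by
  classical
  have hrR : (1 : ℝ) ≤ r := by exact_mod_cast hr
  have hr0 : (0 : ℝ) < r := by linarith
  set κ : ℝ := (r : ℝ) / (r + 1) with hκ
  have hκ0 : 0 < κ := by positivity
  have hκ1 : κ < 1 := by
    rw [hκ, div_lt_one (by linarith)]
    linarith
  have hκr : κ * (1 + 1 / (r : ℝ)) = 1 := by
    rw [hκ]
    field_simp
  set ε' : ℝ := min ε (κ / 2) with hε'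
  have hε'0 : 0 < ε' := lt_min hε (by linarith)
  have hε'ε : ε' ≤ ε := min_le_left _ _
  have hε'κ : ε' ≤ κ / 2 := min_le_right _ _
  set th : ℝ := κ - ε' / 4 with hth
  have hth0 : 0 < th := by rw [hth]; linarith
  have hthκ : th < κ := by rw [hth]; linarith
  have hthr : th * (1 + 1 / (r : ℝ)) < 1 := by
    have h1 := mul_lt_mul_of_pos_right hthκ (show 0 < 1 + 1 / (r : ℝ) by positivity)
    rw [hκr] at h1
    exact h1
  obtain ⟨C₂, δ, hδ, hbad⟩ := sum_bad_le hr a ha hind hth0 hthr
  obtain ⟨η, hη, hmain⟩ := main_bound (θ := κ - ε') (θ₁ := κ - ε' / 2) (T := κ - ε' + 1)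
    (by linarith) (by linarith) (by linarith)
  have hgood := good_small (θ₁ := κ - ε' / 2) (th := th) (T := κ - ε' + 1) (by linarith)
    (by rw [hth]; linarith) (by linarith)
  have hv0 : Tendsto (fun x => (κ - ε' / 2) * l3 x / l2 x) atTop (nhds 0) := by
    have h := tendsto_l3_div_l2.const_mul (κ - ε' / 2)
    rw [mul_zero] at h
    refine h.congr fun x => ?_
    ring
  have hv1 : ∀ᶠ x in atTop, (κ - ε' / 2) * l3 x / l2 x ≤ min δ (1 / 2) :=
    (hv0.eventually (gt_mem_nhds (show (0 : ℝ) < min δ (1 / 2) from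
      lt_min hδ (by norm_num)))).mono fun x hx => le_of_lt hx
  have hsq : Tendsto (fun x => Real.sqrt (Real.log x)) atTop atTop :=
    Real.tendsto_sqrt_atTop.comp Real.tendsto_log_atTop
  have i₀ : Fin r := ⟨0, by omega⟩
  filter_upwards [hmain, hgood, hv1, eventually_sqrt_le_LL (8 / η), hsq.eventually_ge_atTop C₂,
    eventually_ge_atTop ((a i₀ : ℕ) : ℝ), eventually_ge_atTop (1 : ℝ)]
    with x hm hg hv hK hC₂ hxa hx1
  have hx0 : 0 < x := by linarith
  have hfin : {n : ℕ | (n : ℝ) ≤ x ∧ ∀ i, Nat.FermatPsp n (a i)}.Finite := by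
    refine (Set.finite_Iic ⌊x⌋₊).subset fun n hn => ?_
    exact Nat.le_floor hn.1
  have hLL0 : 0 ≤ LL x := le_trans (by positivity) hK
  have hmm := hm (fun p => ∀ i, ¬ p ∣ a i)
    (fun p => Finset.univ.lcm fun i => orderOf (a i : ZMod p)) (2 * Real.log (a i₀))
    (fun _ => True) (sys_bases a ha i₀) (by
      have : Real.log (a i₀) ≤ Real.log x :=
        Real.log_le_log (by have := ha i₀; exact_mod_cast (by omega : 0 < a i₀)) hxa
      linarith) (fun _ _ _ _ _ => trivial) (by
      intro k hk1 hkT M hM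
      set v : ℝ := (κ - ε' / 2) * l3 x / l2 x with hvdef
      have hvδ : v ≤ δ := hv.trans (min_le_left _ _)
      have hvh : v ≤ 1 / 2 := hv.trans (min_le_right _ _)
      set S : Finset ℕ := M.biUnion fun m => m.primeFactors with hS
      have hSp : ∀ p ∈ S, p.Prime ∧ (∀ i, ¬ p ∣ a i) ∧
          (Finset.univ.lcm fun i => orderOf (a i : ZMod p)) ∣ k := by
        intro p hp
        rw [hS, Finset.mem_biUnion] at hp
        obtain ⟨m, hmM, hpm⟩ := hp
        have h1 := Nat.prime_of_mem_primeFactors hpm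
        have h2 := (hM m hmM).2.2 p h1 (Nat.dvd_of_mem_primeFactors hpm)
        exact ⟨h1, h2.1, h2.2⟩
      have he := euler_le (S := S) (fun p hp => (hSp p hp).1) (c := 1 - v) (by linarith)
        (g := fun _ => 1) (fun _ => zero_le_one) (fun _ => le_rfl) M (by
          intro m hmM
          refine ⟨(hM m hmM).1, fun p hp hpm => ?_⟩
          rw [hS, Finset.mem_biUnion]
          exact ⟨m, hmM, Nat.mem_primeFactors.mpr ⟨hp, hpm, (hM m hmM).1⟩⟩)
      simp only [Finset.prod_const_one, mul_one, one_mul] at he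
      have hneg : -(1 - v) = -1 + v := by ring
      rw [hneg] at he
      refine he.trans (Real.exp_le_exp.mpr ?_)
      have h3 : ∑ p ∈ S, (p : ℝ) ^ (-1 + v) ≤ Real.sqrt (Real.log x) + C₂ := by
        rw [← Finset.sum_filter_add_sum_filter_not S (fun p =>
          (p : ℝ) ^ th < ((Finset.univ.lcm fun i => orderOf (a i : ZMod p) : ℕ) : ℝ))]
        refine add_le_add ?_ ?_
        · refine hg (fun p => ∀ i, ¬ p ∣ a i)
            (fun p => Finset.univ.lcm fun i => orderOf (a i : ZMod p)) _ (sys_bases a ha i₀)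
            k hk1 hkT _ fun p hp => ?_
          rw [Finset.mem_filter] at hp
          have := hSp p hp.1
          exact ⟨this.1, this.2.1, this.2.2, hp.2⟩
        · refine hbad v hvδ _ fun p hp => ?_
          rw [Finset.mem_filter] at hp
          have := hSp p hp.1
          exact ⟨this.1, this.2.1, not_lt.mp hp.2⟩
      have h4 : 8 * Real.sqrt (Real.log x) ≤ η * LL x := by
        have h5 := mul_le_mul_of_nonneg_left hK hη.le
        have h6 : η * (8 / η * Real.sqrt (Real.log x)) = 8 * Real.sqrt (Real.log x) := by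
          field_simp
        rw [h6] at h5
        exact h5
      linarith)
    hfin.toFinset (by
      intro n hn
      rw [Set.Finite.mem_toFinset] at hn
      exact ⟨hn.1, NN_of_psps a ha hr hn.2, trivial⟩)
  rw [Set.ncard_eq_toFinset_card _ hfin]
  refine hmm.trans ?_
  have h7 : Real.exp ((κ - ε) * (Real.log x * Real.log (Real.log (Real.log x))
        / Real.log (Real.log x))) ≤ Real.exp ((κ - ε') * LL x) := by
    refine Real.exp_le_exp.mpr ?_
    show (κ - ε) * LL x ≤ (κ - ε') * LL x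
    exact mul_le_mul_of_nonneg_right (by linarith) hLL0
  exact div_le_div_of_nonneg_left hx0.le (Real.exp_pos _) h7

end Pool.Agent.Lib.MP_757a88_nt.PS
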