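import Pool.Agent.Lib.MP_757a88_nt.Mg.G001

/-!
# Pseudoprimes, F1: the weighted sum over numbers with few prime factors
-/

set_option autoImplicit false

noncomputable section

namespace Pool.Agent.Lib.MP_757a88_nt.PS

/-- The weighted sum. PROOF. `lam ≥ 1`; put `g p = lam⁻¹` for `p ≤ Y` and `1` otherwise. For `m ∈ M` the number of `p ∣ m` with `p ≤ Y` is at most `R`, so `1 ≤ lam ^ R * ∏ p ∈ m.primeFactors, g p`.
`euler_le` with `c = 1 - v` and `S` = the union of the prime factors. -/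
theorem sum_few_le {M : Finset ℕ} {R Y v lam S₁ S₂ : ℝ} (hv : v ≤ 1 / 2) (hlam : 1 ≤ lam)
    (hM : ∀ m ∈ M, m ≠ 0 ∧ (m.primeFactors.card : ℝ) ≤ R)
    (h1 : ∀ F : Finset ℕ, (∀ p ∈ F, p.Prime ∧ (p : ℝ) ≤ Y) →
      ∑ p ∈ F, (p : ℝ) ^ (-1 + v) ≤ S₁)
    (h2 : ∀ F : Finset ℕ, (∀ p ∈ F, p.Prime ∧ Y < p ∧ ∃ m ∈ M, p ∣ m) →
      ∑ p ∈ F, (p : ℝ) ^ (-1 + v) ≤ S₂) :
    ∑ m ∈ M, (m : ℝ) ^ (-1 + v) ≤ lam ^ R * Real.exp (4 * (lam⁻¹ * S₁ + S₂)) := by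
  classical
  have hlam0 : (0 : ℝ) < lam := lt_of_lt_of_le one_pos hlam
  have hinv0 : (0 : ℝ) ≤ lam⁻¹ := inv_nonneg.mpr hlam0.le
  have hinv1 : lam⁻¹ ≤ 1 := inv_le_one_of_one_le₀ hlam
  set g : ℕ → ℝ := fun p => if (p : ℝ) ≤ Y then lam⁻¹ else 1 with hg
  set S : Finset ℕ := M.biUnion Nat.primeFactors with hSdef
  have hg0 : ∀ p, 0 ≤ g p := by
    intro p; simp only [hg]; split_ifs
    · exact hinv0
    · exact zero_le_one
  have hg1 : ∀ p, g p ≤ 1 := by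
    intro p; simp only [hg]; split_ifs
    · exact hinv1
    · exact le_refl _
  have hglow : ∀ p, lam⁻¹ ≤ g p := by
    intro p; simp only [hg]; split_ifs
    · exact le_refl _
    · exact hinv1
  have hS : ∀ p ∈ S, p.Prime := by
    intro p hp
    obtain ⟨m, _, hm2⟩ := Finset.mem_biUnion.mp hp
    exact Nat.prime_of_mem_primeFactors hm2
  have hMS : ∀ m ∈ M, m ≠ 0 ∧ ∀ p, p.Prime → p ∣ m → p ∈ S := by
    intro m hm
    refine ⟨(hM m hm).1, fun p hp hpm => ?_⟩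
    exact Finset.mem_biUnion.mpr ⟨m, hm, Nat.mem_primeFactors.mpr ⟨hp, hpm, (hM m hm).1⟩⟩
  have hc : (1 : ℝ) / 2 ≤ 1 - v := by linarith
  have hE := euler_le hS hc hg0 hg1 M hMS
  have hneg : -(1 - v) = -1 + v := by ring
  rw [hneg] at hE
  have hprod : ∀ m ∈ M, (1 : ℝ) ≤ lam ^ R * ∏ p ∈ m.primeFactors, g p := by
    intro m hm
    have h3 : (lam⁻¹) ^ (m.primeFactors.card) ≤ ∏ p ∈ m.primeFactors, g p := by
      rw [← Finset.prod_const]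
      exact Finset.prod_le_prod (fun _ _ => hinv0) (fun p _ => hglow p)
    have h4 : lam ^ (m.primeFactors.card : ℝ) ≤ lam ^ R :=
      Real.rpow_le_rpow_of_exponent_le hlam (hM m hm).2
    rw [Real.rpow_natCast] at h4
    have h5 : (1 : ℝ) = lam ^ (m.primeFactors.card) * (lam⁻¹) ^ (m.primeFactors.card) := by
      rw [← mul_pow, mul_inv_cancel₀ hlam0.ne', one_pow]
    rw [h5]
    exact mul_le_mul h4 h3 (pow_nonneg hinv0 _) (Real.rpow_nonneg hlam0.le _)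
  have hsum : ∑ m ∈ M, (m : ℝ) ^ (-1 + v)
      ≤ lam ^ R * ∑ m ∈ M, (m : ℝ) ^ (-1 + v) * ∏ p ∈ m.primeFactors, g p := by
    rw [Finset.mul_sum]
    refine Finset.sum_le_sum (fun m hm => ?_)
    have h6 : (0 : ℝ) ≤ (m : ℝ) ^ (-1 + v) := Real.rpow_nonneg (Nat.cast_nonneg _) _
    calc (m : ℝ) ^ (-1 + v) = (m : ℝ) ^ (-1 + v) * 1 := (mul_one _).symm
      _ ≤ (m : ℝ) ^ (-1 + v) * (lam ^ R * ∏ p ∈ m.primeFactors, g p) :=
          mul_le_mul_of_nonneg_left (hprod m hm) h6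
      _ = lam ^ R * ((m : ℝ) ^ (-1 + v) * ∏ p ∈ m.primeFactors, g p) := by ring
  have hSsum : ∑ p ∈ S, g p * (p : ℝ) ^ (-1 + v) ≤ lam⁻¹ * S₁ + S₂ := by
    rw [← Finset.sum_filter_add_sum_filter_not S (fun p : ℕ => (p : ℝ) ≤ Y)]
    refine add_le_add ?_ ?_
    · have h7 : ∑ p ∈ S.filter (fun p : ℕ => (p : ℝ) ≤ Y), g p * (p : ℝ) ^ (-1 + v)
          = lam⁻¹ * ∑ p ∈ S.filter (fun p : ℕ => (p : ℝ) ≤ Y), (p : ℝ) ^ (-1 + v) := by
        rw [Finset.mul_sum]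
        refine Finset.sum_congr rfl (fun p hp => ?_)
        have h8 : (p : ℝ) ≤ Y := (Finset.mem_filter.mp hp).2
        simp only [hg, if_pos h8]
      rw [h7]
      refine mul_le_mul_of_nonneg_left ?_ hinv0
      exact h1 _ (fun p hp => ⟨hS p (Finset.mem_filter.mp hp).1, (Finset.mem_filter.mp hp).2⟩)
    · have h9 : ∑ p ∈ S.filter (fun p : ℕ => ¬ (p : ℝ) ≤ Y), g p * (p : ℝ) ^ (-1 + v)
          = ∑ p ∈ S.filter (fun p : ℕ => ¬ (p : ℝ) ≤ Y), (p : ℝ) ^ (-1 + v) := by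
        refine Finset.sum_congr rfl (fun p hp => ?_)
        have h8 : ¬ (p : ℝ) ≤ Y := (Finset.mem_filter.mp hp).2
        simp only [hg, if_neg h8, one_mul]
      rw [h9]
      refine h2 _ (fun p hp => ?_)
      obtain ⟨hp1, hp2⟩ := Finset.mem_filter.mp hp
      obtain ⟨m, hm1, hm2⟩ := Finset.mem_biUnion.mp hp1
      exact ⟨hS p hp1, not_le.mp hp2, m, hm1, Nat.dvd_of_mem_primeFactors hm2⟩
  calc ∑ m ∈ M, (m : ℝ) ^ (-1 + v)
      ≤ lam ^ R * ∑ m ∈ M, (m : ℝ) ^ (-1 + v) * ∏ p ∈ m.primeFactors, g p := hsum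
    _ ≤ lam ^ R * Real.exp (4 * ∑ p ∈ S, g p * (p : ℝ) ^ (-1 + v)) :=
        mul_le_mul_of_nonneg_left hE (Real.rpow_nonneg hlam0.le _)
    _ ≤ lam ^ R * Real.exp (4 * (lam⁻¹ * S₁ + S₂)) := by
        refine mul_le_mul_of_nonneg_left ?_ (Real.rpow_nonneg hlam0.le _)
        exact Real.exp_le_exp.mpr (by linarith)

end Pool.Agent.Lib.MP_757a88_nt.PS
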