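import Pool.Agent.Lib.MP_757a88_nt.PS.F1
import Pool.Agent.Lib.MP_757a88_nt.Mg.G001
import Pool.Agent.Lib.MP_757a88_nt.Mg.G002

/-!
# Pseudoprimes, F2: pseudoprimes with few prime factors
-/

set_option autoImplicit false

noncomputable section

namespace Pool.Agent.Lib.MP_757a88_nt.PS

open Filter

/-- THEOREM T2. PROOF. We may assume `θ = (B - 1) / 2 - ε > 0`. Choose `B' ∈ (2, B)` and `θ₁` with `θ < θ₁`, `2 θ₁ < B' - 1`; `T = θ + 1`; `main_bound` with `sys_base`,
`Q m : m.primeFactors.card ≤ R = log x / (l2 x) ^ B`. `Y = exp (l2 ^ B')`, `v = θ₁ l3 / l2`, `S₁ = Y ^ v (1 + log Y)` (`sum_small_le`), `lam = S₁`, `S₂ = 1` (`large_small`):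
the sum is at most `lam ^ R * exp 8`, and `log lam = v l2 ^ B' + log (1 + l2 ^ B')`, `R log lam = LL x * (θ₁ l2 ^ (B' - B) + l2 ^ (1 - B) log (1 + l2 ^ B') / l3) ≤ (η / 2) LL x`. -/
theorem few_primes (a : ℕ) (ha : 2 ≤ a) (B : ℝ) (hB : 2 < B) (ε : ℝ) (hε : 0 < ε) :
    ∀ᶠ x : ℝ in atTop, (({n : ℕ | (n : ℝ) ≤ x ∧ Nat.FermatPsp n a ∧
        (n.primeFactors.card : ℝ) ≤ Real.log x / Real.log (Real.log x) ^ B}.ncard : ℕ) : ℝ)
      ≤ x / Real.exp (((B - 1) / 2 - ε) * (Real.log x * Real.log (Real.log (Real.log x))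
        / Real.log (Real.log x))) := by
  classical
  obtain ⟨θ, hθ0, hθ1, hθ2⟩ : ∃ θ : ℝ, 0 < θ ∧ θ < (B - 1) / 2 ∧ (B - 1) / 2 - ε ≤ θ := by
    refine ⟨max ((B - 1) / 2 - ε) ((B - 1) / 4), ?_, ?_, le_max_left _ _⟩
    · exact lt_of_lt_of_le (by linarith) (le_max_right _ _)
    · exact max_lt (by linarith) (by linarith)
  obtain ⟨B', hB'2, hB'B, hB'θ⟩ : ∃ B' : ℝ, 2 < B' ∧ B' < B ∧ 2 * θ + 1 < B' := by
    refine ⟨(max 2 (2 * θ + 1) + B) / 2, ?_, ?_, ?_⟩
    · have := le_max_left 2 (2 * θ + 1)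
      linarith
    · have : max 2 (2 * θ + 1) < B := max_lt hB (by linarith)
      linarith
    · have h1 := le_max_right 2 (2 * θ + 1)
      linarith
  obtain ⟨θ₁, hθ₁, hθ₁'⟩ : ∃ θ₁ : ℝ, θ < θ₁ ∧ 2 * θ₁ < B' - 1 :=
    ⟨(θ + (B' - 1) / 2) / 2, by linarith, by linarith⟩
  have hθ₁0 : 0 < θ₁ := hθ0.trans hθ₁
  obtain ⟨η, hη, hmain⟩ := main_bound hθ0 hθ₁ (T := θ + 1) (by linarith)
  have hlarge := large_small (θ₁ := θ₁) (B := B') (T := θ + 1) hθ₁0 hθ₁' hB'2.le
  have e1 : ∀ᶠ x : ℝ in atTop, θ₁ * (l3 x / l2 x) < 1 / 2 := by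
    have h := (tendsto_l3_div_l2.const_mul θ₁)
    rw [mul_zero] at h
    exact h.eventually_lt_const (by norm_num)
  have e2 : ∀ᶠ x : ℝ in atTop, 1 ≤ l2 x := tendsto_l2.eventually_ge_atTop 1
  have e3 : ∀ᶠ x : ℝ in atTop, 1 ≤ l3 x := tendsto_l3.eventually_ge_atTop 1
  have e4 : ∀ᶠ x : ℝ in atTop, 16 / η * Real.sqrt (Real.log x) ≤ LL x := eventually_sqrt_le_LL _
  have e5 : ∀ᶠ x : ℝ in atTop, Real.exp 1 ≤ x := eventually_ge_atTop _
  have e6 : ∀ᶠ x : ℝ in atTop, (a : ℝ) ≤ x := eventually_ge_atTop _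
  have e7 : ∀ᶠ x : ℝ in atTop,
      θ₁ * l2 x ^ (B' - B) + (1 + B') * l2 x ^ (1 - B) < η / 2 := by
    have h1 : Tendsto (fun x => l2 x ^ (B' - B)) atTop (nhds 0) := by
      have h := (tendsto_rpow_neg_atTop (y := B - B') (by linarith)).comp tendsto_l2
      refine h.congr fun x => ?_
      simp only [Function.comp]
      congr 1
      ring
    have h2 : Tendsto (fun x => l2 x ^ (1 - B)) atTop (nhds 0) := by
      have h := (tendsto_rpow_neg_atTop (y := B - 1) (by linarith)).comp tendsto_l2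
      refine h.congr fun x => ?_
      simp only [Function.comp]
      congr 1
      ring
    have h3 := (h1.const_mul θ₁).add (h2.const_mul (1 + B'))
    rw [mul_zero, mul_zero, add_zero] at h3
    exact h3.eventually_lt_const (by linarith)
  filter_upwards [hmain, hlarge, e1, e2, e3, e4, e5, e6, e7] with x hm hl h1 h2 h3 h4 h5 h6 h7
  have hx0 : 0 < x := (Real.exp_pos 1).trans_le h5
  have hlogx : 1 ≤ Real.log x := by
    rw [Real.le_log_iff_exp_le hx0]
    exact h5
  have hl20 : 0 < l2 x := by linarith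
  have hl30 : 0 < l3 x := by linarith
  have hLL8 : 16 / η ≤ LL x := by
    refine le_trans ?_ h4
    have : 1 ≤ Real.sqrt (Real.log x) := Real.one_le_sqrt.mpr hlogx
    have h16 : 0 < 16 / η := by positivity
    nlinarith
  have hLL0 : 0 < LL x := lt_of_lt_of_le (by positivity) hLL8
  have hgoal : ∀ s : Finset ℕ, (∀ n ∈ s, (n : ℝ) ≤ x ∧
      NN (fun p => ¬ p ∣ a) (fun p => orderOf (a : ZMod p)) n ∧
      (n.primeFactors.card : ℝ) ≤ Real.log x / l2 x ^ B) →
      (s.card : ℝ) ≤ x / Real.exp (θ * LL x) := by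
    refine hm (fun p => ¬ p ∣ a) (fun p => orderOf (a : ZMod p)) (2 * Real.log a)
      (fun m => (m.primeFactors.card : ℝ) ≤ Real.log x / l2 x ^ B) (sys_base ha) ?_ ?_ ?_
    · have ha0 : (0 : ℝ) < a := by
        have : 0 < a := by omega
        exact_mod_cast this
      have := Real.log_le_log ha0 h6
      linarith
    · intro m n hmn hn hQ
      refine le_trans ?_ hQ
      exact_mod_cast Finset.card_le_card (Nat.primeFactors_mono hmn hn)
    · intro k hk hkT M hM
      set v : ℝ := θ₁ * l3 x / l2 x with hv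
      have hv0 : 0 ≤ v := by positivity
      have hvhalf : v ≤ 1 / 2 := by
        rw [hv, mul_div_assoc]
        exact h1.le
      set Y : ℝ := Real.exp (l2 x ^ B') with hY
      have hl2B' : 1 ≤ l2 x ^ B' := Real.one_le_rpow h2 (by linarith)
      have hY1 : 1 ≤ Y := Real.one_le_exp (by linarith)
      have hYv : 1 ≤ Y ^ v := Real.one_le_rpow hY1 hv0
      have hlogY : Real.log Y = l2 x ^ B' := by rw [hY, Real.log_exp]
      set lam : ℝ := Y ^ v * (1 + Real.log Y) with hlam
      have hlam1 : 1 ≤ lam := by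
        rw [hlam, hlogY]
        nlinarith
      have hsum := sum_few_le (M := M) (R := Real.log x / l2 x ^ B) (Y := Y) (v := v)
        (lam := lam) (S₁ := lam) (S₂ := 1) hvhalf hlam1
        (fun m hmM => ⟨(hM m hmM).1, (hM m hmM).2.1⟩)
        (fun F hF => by
          have := sum_small_le (Z := Y) (v := v) hY1 hv0 F
            (fun p hp => ⟨(hF p hp).1.one_lt.le, (hF p hp).2⟩)
          rw [hlam]
          exact this)
        (fun F hF => by
          refine hl (fun p => ¬ p ∣ a) (fun p => orderOf (a : ZMod p)) (2 * Real.log a)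
            (sys_base ha) ?_ k hk hkT F ?_
          · have ha0 : (0 : ℝ) < a := by
              have : 0 < a := by omega
              exact_mod_cast this
            have := Real.log_le_log ha0 h6
            linarith
          · intro p hp
            obtain ⟨hpp, hpY, m, hmM, hpm⟩ := hF p hp
            obtain ⟨hP, hd⟩ := (hM m hmM).2.2 p hpp hpm
            exact ⟨hpp, hP, hd, hpY⟩)
      refine hsum.trans ?_
      have hlam0 : 0 < lam := by linarith
      rw [inv_mul_cancel₀ hlam0.ne']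
      rw [Real.rpow_def_of_pos hlam0, ← Real.exp_add, Real.exp_le_exp]
      have hY0 : 0 < Y := by linarith
      have hloglam : Real.log lam = v * l2 x ^ B' + Real.log (1 + l2 x ^ B') := by
        rw [hlam, hlogY, Real.log_mul (by positivity) (by positivity), Real.log_rpow hY0, hlogY]
      have hlog1 : Real.log (1 + l2 x ^ B') ≤ (1 + B') * l3 x := by
        have hl3 : l3 x = Real.log (l2 x) := rfl
        calc Real.log (1 + l2 x ^ B') ≤ Real.log (2 * l2 x ^ B') :=
              Real.log_le_log (by positivity) (by linarith)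
          _ = Real.log 2 + B' * l3 x := by
              rw [Real.log_mul (by norm_num) (by positivity), Real.log_rpow hl20, hl3]
          _ ≤ (1 + B') * l3 x := by
              have := Real.log_two_lt_d9
              nlinarith
      have hR0 : 0 ≤ Real.log x / l2 x ^ B := by positivity
      have hlogx0 : 0 < Real.log x := by linarith
      have key : Real.log lam * (Real.log x / l2 x ^ B) ≤
          LL x * (θ₁ * l2 x ^ (B' - B) + (1 + B') * l2 x ^ (1 - B)) := by
        rw [hloglam]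
        have hA : v * l2 x ^ B' * (Real.log x / l2 x ^ B) = LL x * (θ₁ * l2 x ^ (B' - B)) := by
          rw [Real.rpow_sub hl20, hv]
          unfold LL
          field_simp
        have hBB : (1 + B') * l3 x * (Real.log x / l2 x ^ B) =
            LL x * ((1 + B') * l2 x ^ (1 - B)) := by
          rw [Real.rpow_sub hl20, Real.rpow_one]
          unfold LL
          field_simp
        have hC : Real.log (1 + l2 x ^ B') * (Real.log x / l2 x ^ B) ≤
            (1 + B') * l3 x * (Real.log x / l2 x ^ B) :=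
          mul_le_mul_of_nonneg_right hlog1 hR0
        calc (v * l2 x ^ B' + Real.log (1 + l2 x ^ B')) * (Real.log x / l2 x ^ B)
            = v * l2 x ^ B' * (Real.log x / l2 x ^ B) +
              Real.log (1 + l2 x ^ B') * (Real.log x / l2 x ^ B) := by ring
          _ ≤ LL x * (θ₁ * l2 x ^ (B' - B)) + LL x * ((1 + B') * l2 x ^ (1 - B)) := by
              rw [hA, ← hBB]
              linarith
          _ = _ := by ring
      have hkey2 : LL x * (θ₁ * l2 x ^ (B' - B) + (1 + B') * l2 x ^ (1 - B)) ≤ LL x * (η / 2) :=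
        mul_le_mul_of_nonneg_left h7.le hLL0.le
      have h8 : 8 ≤ LL x * (η / 2) := by
        have : 16 / η * (η / 2) = 8 := by
          field_simp
          norm_num
        rw [← this]
        exact mul_le_mul_of_nonneg_right hLL8 (by linarith)
      linarith
  set A : Set ℕ := {n : ℕ | (n : ℝ) ≤ x ∧ Nat.FermatPsp n a ∧
        (n.primeFactors.card : ℝ) ≤ Real.log x / Real.log (Real.log x) ^ B} with hA
  have hfin : A.Finite := by
    refine (Set.finite_Iic ⌊x⌋₊).subset ?_
    intro n hn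
    exact Nat.le_floor hn.1
  have hcard : ((A.ncard : ℕ) : ℝ) ≤ x / Real.exp (θ * LL x) := by
    rw [Set.ncard_eq_toFinset_card A hfin]
    refine hgoal _ ?_
    intro n hn
    rw [Set.Finite.mem_toFinset] at hn
    exact ⟨hn.1, NN_of_psp ha hn.2.1, hn.2.2⟩
  refine hcard.trans ?_
  refine div_le_div_of_nonneg_left hx0.le (Real.exp_pos _) ?_
  rw [Real.exp_le_exp]
  have hLLdef : LL x = Real.log x * Real.log (Real.log (Real.log x)) / Real.log (Real.log x) := rfl
  rw [← hLLdef]
  exact mul_le_mul_of_nonneg_right hθ2 hLL0.le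

end Pool.Agent.Lib.MP_757a88_nt.PS
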