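import Pool.Agent.Lib.MP_757a88_nt.Mg.G006
import Pool.Agent.Lib.MP_757a88_nt.PS.B6a

/-!
# Pseudoprimes, H3: the exceptional bases up to `x` are very few
-/

set_option autoImplicit false

noncomputable section

namespace Pool.Agent.Lib.MP_757a88_nt.PS

open Filter

private theorem h3_log {r c : ℝ} (hr : 0 < r) (hc : 0 < c) :
    ∀ᶠ u : ℝ in atTop, Real.log u ≤ c * u ^ r := by
  have h := (isLittleO_log_rpow_atTop hr).bound hc
  filter_upwards [h, eventually_ge_atTop (1 : ℝ)] with u h1 h2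
  rw [Real.norm_of_nonneg (Real.log_nonneg h2),
    Real.norm_of_nonneg (Real.rpow_nonneg (by linarith) r)] at h1
  exact h1

private theorem h3_lin {c : ℝ} (hc : 0 < c) (C : ℝ) :
    ∀ᶠ u : ℝ in atTop, C + u ≤ c * u ^ (3 / 2 : ℝ) := by
  have h := (tendsto_rpow_atTop (show (0 : ℝ) < 1 / 2 by norm_num)).eventually_ge_atTop
    ((|C| + 1) / c)
  filter_upwards [h, eventually_ge_atTop (1 : ℝ)] with u h1 h2
  have hu : 0 < u := by linarith
  rw [div_le_iff₀ hc] at h1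
  have e : u ^ (3 / 2 : ℝ) = u ^ (1 / 2 : ℝ) * u := by
    rw [← Real.rpow_add_one hu.ne']
    norm_num
  rw [e]
  have h3 : (|C| + 1) * u ≤ u ^ (1 / 2 : ℝ) * c * u := mul_le_mul_of_nonneg_right h1 hu.le
  have h4 : C ≤ |C| * u := by nlinarith [le_abs_self C, abs_nonneg C]
  nlinarith

theorem few_bad_sieve {κ ε : ℝ} (hκ : 1 < κ) (hκ2 : κ ≤ 2) (hε : 0 < ε) (hε1 : ε ≤ (κ - 1) / 2) :
    ∀ᶠ x : ℝ in atTop, ∀ G : Finset ℕ, (∀ a ∈ G, (a : ℝ) ≤ x ∧
        1 < ∑ p ∈ badP (κ / 2 - ε / 4) (Real.exp (l2 x ^ (3 / 2 : ℝ)))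
          ⌊Real.exp (l2 x ^ (κ + 1 - ε / 2))⌋₊ a, (p : ℝ) ^ (-1 + (κ / 2 - ε / 2) * l3 x / l2 x)) →
      (G.card : ℝ) ≤ Real.exp (l2 x ^ (κ + 1)) := by
  set th : ℝ := κ / 2 - ε / 4 with hth
  set η : ℝ := 1 - th with hη
  have hη0 : 0 < η := by rw [hη, hth]; linarith
  have hη1 : η ≤ 1 := by rw [hη, hth]; linarith
  set θ₁ : ℝ := κ / 2 - ε / 2 with hθ₁
  have hθ0 : 0 < θ₁ := by rw [hθ₁]; linarith
  obtain ⟨C₁, hC0, hC⟩ := larger_sieve (th := th) (δ := η / 2) (by linarith)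
  have ev : ∀ᶠ u : ℝ in atTop, 2 ≤ u ∧ θ₁ * Real.log u / u ≤ η / 4 ∧
      (Real.log (4 * (C₁ + 1)) + η / 4 * Real.log 2) + u ≤ η / 4 * u ^ (3 / 2 : ℝ) := by
    have g1 := h3_log (r := 1) (c := η / (4 * θ₁)) (by norm_num) (by positivity)
    have g2 := h3_lin (c := η / 4) (by linarith) (Real.log (4 * (C₁ + 1)) + η / 4 * Real.log 2)
    filter_upwards [g1, g2, eventually_ge_atTop (2 : ℝ)] with u h1 h2 h3
    have hu : 0 < u := by linarith
    refine ⟨h3, ?_, h2⟩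
    rw [Real.rpow_one] at h1
    rw [div_le_iff₀ hu]
    have h4 : θ₁ * Real.log u ≤ θ₁ * (η / (4 * θ₁) * u) := mul_le_mul_of_nonneg_left h1 hθ0.le
    have e : θ₁ * (η / (4 * θ₁) * u) = η / 4 * u := by
      field_simp
    linarith
  filter_upwards [tendsto_l2.eventually ev, Real.tendsto_log_atTop.eventually_gt_atTop 1,
    eventually_ge_atTop (1 : ℝ)] with x hx hX hx1 G hG
  obtain ⟨hu2, e2, e3⟩ := hx
  set u : ℝ := l2 x with hu
  have hw : l3 x = Real.log u := rfl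
  rw [hw] at hG
  have hu0 : 0 < u := by linarith
  have hXu : Real.log x = Real.exp u := by
    rw [hu, l2, Real.exp_log (by linarith)]
  set y : ℝ := Real.exp (u ^ (3 / 2 : ℝ)) with hy
  have hy2 : 2 ≤ y := by
    have h1 : 1 ≤ u ^ (3 / 2 : ℝ) := Real.one_le_rpow (by linarith) (by norm_num)
    have h2 := Real.add_one_le_exp (u ^ (3 / 2 : ℝ))
    linarith
  set Z : ℕ := ⌊Real.exp (u ^ (κ + 1 - ε / 2))⌋₊ with hZ
  have hZle : (Z : ℝ) ≤ Real.exp (u ^ (κ + 1 - ε / 2)) := Nat.floor_le (Real.exp_pos _).le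
  have hv : th + 2 * (θ₁ * Real.log u / u) + η / 2 ≤ 1 := by
    rw [hη] at e2 ⊢
    linarith
  have key := hC (θ₁ * Real.log u / u) x y Z hv hx1 hy2 G hG
  set t : ℝ := C₁ * (y / 2) ^ (-(η / 2) / 2) with ht
  have ht0 : 0 ≤ t := mul_nonneg hC0 (Real.rpow_nonneg (by linarith) _)
  have htx : t * (2 * Real.log x) ≤ 1 / 2 := by
    have h1 : (y / 2) ^ (-(η / 2) / 2) = Real.exp (-(η / 4 * u ^ (3 / 2 : ℝ)) + η / 4 * Real.log 2) := by
      rw [Real.rpow_def_of_pos (by linarith), Real.log_div (by linarith) (by norm_num), hy,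
        Real.log_exp]
      congr 1
      ring
    have h2 : t * (2 * Real.log x) = 2 * C₁ *
        Real.exp (-(η / 4 * u ^ (3 / 2 : ℝ)) + η / 4 * Real.log 2 + u) := by
      rw [ht, h1, hXu, Real.exp_add _ u]
      ring
    have h3 : Real.exp (-(η / 4 * u ^ (3 / 2 : ℝ)) + η / 4 * Real.log 2 + u)
        ≤ (4 * (C₁ + 1))⁻¹ := by
      rw [← Real.exp_log (show (0 : ℝ) < (4 * (C₁ + 1))⁻¹ by positivity), Real.log_inv]
      apply Real.exp_le_exp.2
      linarith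
    rw [h2]
    have h4 : 2 * C₁ * Real.exp (-(η / 4 * u ^ (3 / 2 : ℝ)) + η / 4 * Real.log 2 + u)
        ≤ 2 * C₁ * (4 * (C₁ + 1))⁻¹ := mul_le_mul_of_nonneg_left h3 (by positivity)
    refine h4.trans ?_
    rw [← div_eq_mul_inv, div_le_iff₀ (by positivity)]
    linarith
  have ht1 : t ≤ 1 / 2 := by
    have h1 : t * 1 ≤ t * (2 * Real.log x) := mul_le_mul_of_nonneg_left (by linarith) ht0
    linarith
  have hg0 : (0 : ℝ) ≤ G.card := Nat.cast_nonneg _
  have hZ0 : (0 : ℝ) ≤ Z := Nat.cast_nonneg _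
  have h1 : (G.card : ℝ) ^ 2 ≤ G.card * Z := by
    have h2 : t * (G.card * Z + (G.card : ℝ) ^ 2 * (2 * Real.log x))
        = t * (G.card * Z) + (t * (2 * Real.log x)) * (G.card : ℝ) ^ 2 := by ring
    rw [h2] at key
    have h3 : t * (G.card * Z) ≤ 1 / 2 * (G.card * Z) :=
      mul_le_mul_of_nonneg_right ht1 (mul_nonneg hg0 hZ0)
    have h4 : (t * (2 * Real.log x)) * (G.card : ℝ) ^ 2 ≤ 1 / 2 * (G.card : ℝ) ^ 2 :=
      mul_le_mul_of_nonneg_right htx (sq_nonneg _)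
    linarith
  have h2 : (G.card : ℝ) ≤ Z := by
    rcases hg0.lt_or_eq with h | h
    · have h3 : (G.card : ℝ) * G.card ≤ G.card * Z := by rw [← pow_two]; exact h1
      exact le_of_mul_le_mul_left h3 h
    · rw [← h]; exact hZ0
  refine h2.trans (hZle.trans (Real.exp_le_exp.2 ?_))
  exact Real.rpow_le_rpow_of_exponent_le (by linarith) (by linarith)

/-- All but very few bases up to `x`. -/
theorem exceptional_bases (κ ε : ℝ) (hκ : 1 < κ) (hκ2 : κ ≤ 2) (hε : 0 < ε) :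
    ∀ᶠ x : ℝ in atTop,
      (({a : ℕ | 2 ≤ a ∧ (a : ℝ) ≤ x ∧
          x / Real.exp ((κ / 2 - ε) * (Real.log x * Real.log (Real.log (Real.log x))
            / Real.log (Real.log x)))
            < (({n : ℕ | (n : ℝ) ≤ x ∧ Nat.FermatPsp n a}.ncard : ℕ) : ℝ)}.ncard : ℕ) : ℝ)
        ≤ Real.exp (Real.log (Real.log x) ^ (κ + 1)) := by
  have hε' : 0 < min ε ((κ - 1) / 2) := lt_min hε (by linarith)
  filter_upwards [count_of_good_base hκ hκ2 hε' (min_le_right _ _),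
    few_bad_sieve hκ hκ2 hε' (min_le_right _ _), eventually_sqrt_le_LL 0, eventually_ge_atTop 0]
    with x h1 h2 h3 hx0
  set S : Set ℕ := {a : ℕ | 2 ≤ a ∧ (a : ℝ) ≤ x ∧
          x / Real.exp ((κ / 2 - ε) * (Real.log x * Real.log (Real.log (Real.log x))
            / Real.log (Real.log x)))
            < (({n : ℕ | (n : ℝ) ≤ x ∧ Nat.FermatPsp n a}.ncard : ℕ) : ℝ)} with hS
  have hfin : S.Finite := (Set.finite_Iic ⌊x⌋₊).subset fun a ha => Nat.le_floor ha.2.1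
  have hLL : 0 ≤ LL x := by simpa using h3
  have key := h2 hfin.toFinset (fun a ha => by
    have ha' : a ∈ S := by simpa using ha
    refine ⟨ha'.2.1, ?_⟩
    by_contra hcon
    rw [not_lt] at hcon
    have h4 := h1 a ha'.1 ha'.2.1 hcon
    have h5 : x / Real.exp ((κ / 2 - min ε ((κ - 1) / 2)) * LL x)
        ≤ x / Real.exp ((κ / 2 - ε) * LL x) := by
      apply div_le_div_of_nonneg_left hx0 (Real.exp_pos _)
      apply Real.exp_le_exp.2
      apply mul_le_mul_of_nonneg_right _ hLL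
      have := min_le_left ε ((κ - 1) / 2)
      linarith
    have h6 := ha'.2.2
    have h7 : (κ / 2 - ε) * (Real.log x * Real.log (Real.log (Real.log x))
            / Real.log (Real.log x)) = (κ / 2 - ε) * LL x := rfl
    rw [h7] at h6
    linarith)
  rw [Set.ncard_eq_toFinset_card S hfin]
  exact key

end Pool.Agent.Lib.MP_757a88_nt.PS
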