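import Mathlib

/-!
# Pseudoprimes, S2: Euler and strong pseudoprimes are pseudoprimes
-/

set_option autoImplicit false

noncomputable section

namespace Pool.Agent.Lib.MP_757a88_nt.PS

private theorem s2_fermat {a n : ℕ} (ha : 2 ≤ a) (hn : 1 < n) (hp : ¬ n.Prime)
    (h : a ^ (n - 1) ≡ 1 [MOD n]) : Nat.FermatPsp n a := by
  refine ⟨?_, hp, hn⟩
  have h1 : 1 ≤ a ^ (n - 1) := Nat.one_le_pow _ _ (by omega)
  exact (Nat.modEq_iff_dvd' h1).mp h.symm

/-- PROOF. `Nat.FermatPsp n a` unfolds to `n ∣ a ^ (n - 1) - 1 ∧ ¬ n.Prime ∧ 1 < n`. First case: trivial. Second case: square the congruence, `(n - 1) / 2 * 2 = n - 1` as `n` is odd, and the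
square of the Jacobi symbol is `1` by coprimality (`jacobiSym.sq_one`). Third case: `a ^ d ≡ 1` gives `a ^ (n - 1) = (a ^ d) ^ (2 ^ s) ≡ 1`; `a ^ (2 ^ r * d) ≡ n - 1` gives
`a ^ (2 ^ (r + 1) * d) ≡ (n - 1) ^ 2 ≡ 1`, and `2 ^ (r + 1) * d ∣ n - 1`. -/
theorem psp_of_mem {a n : ℕ} (ha : 2 ≤ a) {P : ℕ → ℕ → Prop}
    (hP : P ∈ ({fun a n : ℕ => Nat.FermatPsp n a,
            fun a n : ℕ => Odd n ∧ 1 < n ∧ ¬ n.Prime ∧ Nat.Coprime a n ∧
              (a : ZMod n) ^ ((n - 1) / 2) = (((jacobiSym (a : ℤ) n : ℤ)) : ZMod n),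
            fun a n : ℕ => Odd n ∧ 1 < n ∧ ¬ n.Prime ∧
              ∃ s d : ℕ, n - 1 = 2 ^ s * d ∧ Odd d ∧
                (a ^ d ≡ 1 [MOD n] ∨ ∃ r < s, a ^ (2 ^ r * d) ≡ n - 1 [MOD n])} :
              Set (ℕ → ℕ → Prop))) (h : P a n) : Nat.FermatPsp n a := by
  simp only [Set.mem_insert_iff, Set.mem_singleton_iff] at hP
  rcases hP with hP | hP | hP
  · rw [hP] at h
    exact h
  · rw [hP] at h
    obtain ⟨hodd, hn, hp, hcop, hj⟩ := h
    refine s2_fermat ha hn hp ?_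
    have h2 : (n - 1) / 2 * 2 = n - 1 := by
      obtain ⟨m, hm⟩ := hodd
      omega
    have h3 : (jacobiSym (a : ℤ) n) ^ 2 = 1 := by
      apply jacobiSym.sq_one
      rw [Int.gcd_natCast_natCast]
      exact hcop
    rw [← ZMod.natCast_eq_natCast_iff, Nat.cast_pow, Nat.cast_one, ← h2, pow_mul, hj,
      ← Int.cast_pow, h3, Int.cast_one]
  · rw [hP] at h
    obtain ⟨_, hn, hp, s, d, hsd, _, h1⟩ := h
    refine s2_fermat ha hn hp ?_
    rcases h1 with h1 | ⟨r, hr, h1⟩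
    · have h2 : a ^ (n - 1) = (a ^ d) ^ (2 ^ s) := by
        rw [hsd, mul_comm, pow_mul]
      rw [h2]
      simpa using h1.pow (2 ^ s)
    · obtain ⟨t, rfl⟩ : ∃ t, s = r + 1 + t := ⟨s - (r + 1), by omega⟩
      have h2 : a ^ (n - 1) = ((a ^ (2 ^ r * d)) ^ 2) ^ (2 ^ t) := by
        rw [← pow_mul, ← pow_mul, hsd]
        congr 1
        rw [pow_add, pow_add]
        ring
      have h3 : (n - 1) ^ 2 ≡ 1 [MOD n] := by
        rw [← ZMod.natCast_eq_natCast_iff, Nat.cast_pow, Nat.cast_sub hn.le]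
        simp
      rw [h2]
      simpa using ((h1.pow 2).trans h3).pow (2 ^ t)

end Pool.Agent.Lib.MP_757a88_nt.PS
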